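import Pool.Agent.Helper81.Batch.Peel

/-!
The recursion satisfied by the bound `Nb`, relations between elementary and complete
homogeneous polynomials, and the lower bound for the Hilbert series.
-/

open MvPolynomial Finset

namespace Pool.Agent.Helper81.Batch

noncomputable section

variable {σ : Type} [Fintype σ] [DecidableEq σ] {β : Type} [DecidableEq β]

lemma br_succ' (n : ℕ) : br (n + 1) = 1 + PowerSeries.X * br n := by
  unfold br
  rw [sum_range_succ', pow_zero, Finset.mul_sum, add_comm]
  congr 1
  refine Finset.sum_congr rfl fun j _ => ?_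
  rw [pow_succ']

omit [Fintype σ] in
lemma Nb_zero_of_lt (b : σ → β) (D : ℕ) : ∀ (l : List σ) (m : ℕ), l.length < m →
    Nb b D l m = 0 := by
  intro l
  induction l with
  | nil => intro m hm; rw [Nb, if_neg (by simp at hm; omega)]
  | cons y l ih =>
    intro m hm
    rw [List.length_cons] at hm
    rw [Nb, ih _ (by omega), ih _ (by omega), mul_zero, mul_zero, add_zero]

omit [Fintype σ] in
theorem Nb_rec (b : σ → β) (D : ℕ) : ∀ (l : List σ) (m : ℕ), l.Nodup → Valid b (D + 1) l (m + 1) →
    Nb b (D + 1) l m = Nb b (D + 1) l (m + 1) + PowerSeries.X ^ (l.length - m) * Nb b D l m := by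
  intro l
  induction l with
  | nil =>
    intro m _ _
    rcases Nat.eq_zero_or_pos m with rfl | hm
    · simp [Nb]
    · have : m ≠ 0 := by omega
      simp [Nb, this]
  | cons y l ih =>
    intro m hn hv
    have hy : y ∉ l.toFinset := by
      rw [List.mem_toFinset]; exact (List.nodup_cons.1 hn).1
    have hn' := (List.nodup_cons.1 hn).2
    set n := (bt b l.toFinset (b y)).card with hnn
    have hmc : m + 1 ≤ D + 1 + n := by
      have h1 := hv y (by simp)
      rw [List.toFinset_cons, bt_insert_same, card_insert_of_notMem] at h1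
      · omega
      · exact fun h => hy (mem_filter.1 h).1
    obtain ⟨t, ht⟩ := Nat.exists_eq_add_of_le hmc
    have e1 : D + 1 + n - m = t + 1 := by omega
    have e2 : D + 1 + n - (m + 1) = t := by omega
    have e3 : D + n - m = t := by omega
    have e4 : m + 1 - 1 = m := rfl
    simp only [Nb, ← hnn, e1, e2, e3, e4, List.length_cons]
    have key2 : br t * (Nb b (D + 1) l m - Nb b (D + 1) l (m + 1) -
        PowerSeries.X ^ (l.length - m) * Nb b D l m) = 0 := by
      rcases Nat.eq_zero_or_pos t with rfl | htp
      · rw [br_zero, zero_mul]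
      · rw [ih m hn' (valid_step hn hv le_rfl (by omega))]
        ring
    have key3 : PowerSeries.X ^ (l.length + 1 - m) * Nb b D l m =
        PowerSeries.X * PowerSeries.X ^ (l.length - m) * Nb b D l m := by
      rcases Nat.lt_or_ge l.length m with h | h
      · rw [Nb_zero_of_lt b D l m h, mul_zero, mul_zero]
      · rw [← pow_succ']
        congr 2
        omega
    have key1 : br m * (Nb b (D + 1) l (m - 1) - Nb b (D + 1) l m -
        PowerSeries.X ^ (l.length + 1 - m) * Nb b D l (m - 1)) = 0 := by
      rcases Nat.eq_zero_or_pos m with rfl | hm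
      · rw [br_zero, zero_mul]
      · obtain ⟨m', rfl⟩ := Nat.exists_eq_succ_of_ne_zero (show m ≠ 0 by omega)
        have e5 : m'.succ - 1 = m' := rfl
        have e6 : l.length + 1 - m'.succ = l.length - m' := by omega
        rw [e5, e6, ih m' hn' (valid_step hn hv (by omega) (by omega)), Nat.succ_eq_add_one]
        ring
    have hb1 := br_succ' t
    have hb2 := br_succ m
    linear_combination key1 + PowerSeries.X ^ m * PowerSeries.X * key2 +
      PowerSeries.X ^ m * Nb b (D + 1) l m * hb1 - Nb b (D + 1) l m * hb2 -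
      PowerSeries.X ^ m * br t * key3

omit [Fintype σ] in
lemma Nb_zero [Fintype β] (b : σ → β) (D : ℕ) : ∀ (l : List σ), l.Nodup →
    Nb b D l 0 = ∏ c : β, ∏ j ∈ range (bt b l.toFinset c).card, br (D + j) := by
  intro l
  induction l with
  | nil => intro _; simp [Nb]
  | cons y l ih =>
    intro hn
    have hy : y ∉ l.toFinset := by
      rw [List.mem_toFinset]; exact (List.nodup_cons.1 hn).1
    have hy' : y ∉ bt b l.toFinset (b y) := fun h => hy (mem_filter.1 h).1
    rw [Nb, br_zero, zero_mul, zero_add, pow_zero, one_mul, Nat.sub_zero,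
      ih (List.nodup_cons.1 hn).2, List.toFinset_cons,
      ← Finset.mul_prod_erase univ _ (mem_univ (b y)),
      ← Finset.mul_prod_erase univ (fun c => ∏ j ∈ range (bt b (insert y l.toFinset) c).card,
        br (D + j)) (mem_univ (b y)), ← mul_assoc]
    congr 1
    · rw [bt_insert_same, card_insert_of_notMem hy', prod_range_succ, mul_comm]
    · refine Finset.prod_congr rfl fun c hc => ?_
      rw [bt_insert_ne b _ (Ne.symm (ne_of_mem_erase hc))]

omit [Fintype σ] [DecidableEq σ] in
lemma E_mul_H (s : Finset σ) : Egf s * PowerSeries.rescale (-1) (Hgf s) = 1 := by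
  unfold Egf Hgf
  rw [map_prod, ← Finset.prod_mul_distrib]
  apply Finset.prod_eq_one
  intro x _
  have h := congrArg (PowerSeries.rescale (-1 : MvPolynomial σ ℚ)) (geom_mul x)
  rw [map_mul, map_sub, map_one, map_mul, PowerSeries.rescale_X] at h
  have hC : PowerSeries.rescale (-1 : MvPolynomial σ ℚ)
      (PowerSeries.C (X x : MvPolynomial σ ℚ)) = PowerSeries.C (X x : MvPolynomial σ ℚ) := by
    ext1 n
    rw [PowerSeries.coeff_rescale, PowerSeries.coeff_C]
    split_ifs with h
    · rw [h, pow_zero, one_mul]
    · rw [mul_zero]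
  rw [hC] at h
  have hX : (1 + PowerSeries.C (X x : MvPolynomial σ ℚ) * PowerSeries.X) =
      1 - PowerSeries.C (X x) * (PowerSeries.C (-1) * PowerSeries.X) := by
    rw [map_neg, map_one]; ring
  rw [hX]
  exact h

omit [Fintype σ] [DecidableEq σ] in
lemma coeff_resc (s : Finset σ) (l : ℕ) :
    PowerSeries.coeff l (PowerSeries.rescale (-1) (Hgf s)) = (-1) ^ l * ho s l := by
  rw [PowerSeries.coeff_rescale]; rfl

omit [Fintype σ] [DecidableEq σ] in
lemma neg_one_pow_mem {I : Ideal (MvPolynomial σ ℚ)} {p : MvPolynomial σ ℚ} (l : ℕ)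
    (h : (-1) ^ l * p ∈ I) : p ∈ I := by
  have := Ideal.mul_mem_left I ((-1) ^ l) h
  rwa [← mul_assoc, ← mul_pow, neg_one_mul, neg_neg, one_pow, one_mul] at this

omit [Fintype σ] in
/-- The ideal generated by `|s|` consecutive complete homogeneous polynomials contains all the
later ones. -/
lemma ho_mem_of_consecutive {I : Ideal (MvPolynomial σ ℚ)} (s : Finset σ) (D : ℕ) (hD : 0 < D)
    (h : ∀ j, j < s.card → ho s (D + j) ∈ I) : ∀ l, D ≤ l → ho s l ∈ I := by
  intro l
  induction l using Nat.strong_induction_on with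
  | _ l ih =>
    intro hl
    rcases Nat.lt_or_ge l (D + s.card) with h1 | h1
    · obtain ⟨j, rfl⟩ := Nat.exists_eq_add_of_le hl
      exact h j (by omega)
    · have h2 := congrArg (PowerSeries.coeff l) (E_mul_H s)
      rw [PowerSeries.coeff_mul, PowerSeries.coeff_one, if_neg (by omega)] at h2
      have hm : ((0 : ℕ), l) ∈ antidiagonal l := by simp
      rw [← Finset.add_sum_erase _ _ hm] at h2
      have h3 : PowerSeries.coeff 0 (Egf s) = 1 := el_zero s
      simp only [h3, one_mul, coeff_resc] at h2
      apply neg_one_pow_mem l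
      rw [eq_neg_of_add_eq_zero_left h2]
      refine neg_mem (Ideal.sum_mem _ ?_)
      rintro ⟨u, v⟩ huv
      rw [mem_erase, HasAntidiagonal.mem_antidiagonal] at huv
      obtain ⟨hne, huv⟩ := huv
      simp only at huv
      have hu : u ≠ 0 := by
        rintro rfl
        apply hne
        rw [zero_add] at huv
        rw [huv]
      rcases Nat.lt_or_ge s.card u with h4 | h4
      · have : PowerSeries.coeff u (Egf s) = 0 := el_of_lt s u h4
        simp only [this, zero_mul]
        exact zero_mem _
      · refine Ideal.mul_mem_left _ _ (Ideal.mul_mem_left _ _ (ih v (by omega) (by omega)))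

omit [Fintype σ] in
/-- Multiplication by `e_{|s| + 1 - m}` maps the ideal for `(D, m - 1)` to the one for
`(D + 1, m - 1)`. -/
lemma el_mul_mem (b : σ → β) (D m : ℕ) (s : Finset σ) (hm : m ≤ s.card)
    (hv : ∀ c, m < D + (bt b s c).card) :
    Bid b D s m ≤ col (Bid b (D + 1) s m) (el s (s.card - m)) := by
  refine Bid_le ?_ ?_ ?_
  · intro x hx
    exact le_col _ _ (X_mem_Bid b _ _ _ hx)
  · intro c l hl
    rcases Nat.lt_or_ge D l with h1 | h1
    · exact le_col _ _ (ho_mem_Bid b _ _ _ c h1)
    · have hlD : l = D := by omega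
      subst hlD
      rw [mem_col]
      have hE : Egf s * PowerSeries.rescale (-1) (Hgf (bt b s c)) = Egf (s \ bt b s c) := by
        have hsp : Egf s = Egf (s \ bt b s c) * Egf (bt b s c) := by
          unfold Egf
          rw [Finset.prod_sdiff (Finset.filter_subset _ _)]
        rw [hsp, mul_assoc, E_mul_H, mul_one]
      have h2 := congrArg (PowerSeries.coeff (s.card - m + l)) hE
      have h3 : PowerSeries.coeff (s.card - m + l) (Egf (s \ bt b s c)) = 0 := by
        apply el_of_lt
        rw [Finset.card_sdiff_of_subset (Finset.filter_subset _ _)]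
        have h6 : (bt b s c).card ≤ s.card :=
          Finset.card_le_card (Finset.filter_subset (fun x => b x = c) s)
        have h7 := hv c
        change s.card - (bt b s c).card < _
        omega
      rw [h3, PowerSeries.coeff_mul] at h2
      have hmm : ((s.card - m : ℕ), l) ∈ antidiagonal (s.card - m + l) := by simp
      rw [← Finset.add_sum_erase _ _ hmm] at h2
      simp only [coeff_resc] at h2
      apply neg_one_pow_mem l
      rw [mul_left_comm]
      have h5 : PowerSeries.coeff (s.card - m) (Egf s) = el s (s.card - m) := rfl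
      rw [h5] at h2
      rw [eq_neg_of_add_eq_zero_left h2]
      refine neg_mem (Ideal.sum_mem _ ?_)
      rintro ⟨u, v⟩ huv
      rw [mem_erase, HasAntidiagonal.mem_antidiagonal] at huv
      obtain ⟨hne, huv⟩ := huv
      simp only at huv
      have hvl : v ≠ l := by
        rintro rfl
        apply hne
        congr 1
        omega
      rcases Nat.lt_or_ge l v with h4 | h4
      · exact Ideal.mul_mem_left _ _ (Ideal.mul_mem_left _ _ (ho_mem_Bid b _ _ _ c h4))
      · refine Ideal.mul_mem_right _ _ (el_mem_Bid b _ _ _ ?_)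
        omega
  · intro l hl
    exact le_col _ _ (el_mem_Bid b _ _ _ hl)

omit [Fintype σ] [DecidableEq σ] in
lemma Bid_succ (b : σ → β) (D m : ℕ) (s : Finset σ) (hm : m ≤ s.card) :
    Bid b D s (m + 1) = Bid b D s m ⊔ Ideal.span {el s (s.card - m)} := by
  apply le_antisymm
  · refine Bid_le ?_ ?_ ?_
    · intro x hx
      exact (le_sup_left : Bid b D s m ≤ _) (X_mem_Bid b _ _ _ hx)
    · intro c l hl
      exact (le_sup_left : Bid b D s m ≤ _) (ho_mem_Bid b _ _ _ c hl)
    · intro l hl
      rcases Nat.lt_or_ge s.card (l + m) with h | h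
      · exact (le_sup_left : Bid b D s m ≤ _) (el_mem_Bid b _ _ _ h)
      · have : l = s.card - m := by omega
        rw [this]
        exact (le_sup_right : Ideal.span {el s (s.card - m)} ≤ _)
          (Ideal.mem_span_singleton_self _)
  · refine sup_le ?_ ?_
    · refine Bid_le ?_ ?_ ?_
      · intro x hx
        exact X_mem_Bid b _ _ _ hx
      · intro c l hl
        exact ho_mem_Bid b _ _ _ c hl
      · intro l hl
        exact el_mem_Bid b _ _ _ (by omega)
    · rw [Ideal.span_singleton_le_iff_mem]
      exact el_mem_Bid b _ _ _ (by omega)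

/-! ### geometric series and the lower bound -/

/-- `1 / (1 - q ^ w)`. -/
def gs (w : ℕ) : PowerSeries ℚ := PowerSeries.mk fun n => if w ∣ n then 1 else 0

lemma CLe_gs (w : ℕ) : CLe 0 (gs w) := by
  intro i
  rw [gs, PowerSeries.coeff_mk, map_zero]
  split_ifs <;> norm_num

lemma gs_mul (w : ℕ) (hw : 0 < w) : gs w * (1 - PowerSeries.X ^ w) = 1 := by
  ext n
  rw [mul_sub, mul_one, map_sub, PowerSeries.coeff_mul_X_pow', gs, PowerSeries.coeff_mk,
    PowerSeries.coeff_mk, PowerSeries.coeff_one]
  rcases Nat.eq_zero_or_pos n with rfl | hn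
  · simp [hw.ne']
  · rw [if_neg hn.ne']
    by_cases h : w ∣ n
    · have h1 := Nat.le_of_dvd hn h
      rw [if_pos h, if_pos h1, if_pos (Nat.dvd_sub h (dvd_refl w)), sub_self]
    · rw [if_neg h]
      split_ifs with h1 h2
      · exact absurd ((Nat.dvd_sub_iff_left h1 (dvd_refl w)).1 h2) h
      · rw [sub_zero]
      · rw [sub_zero]

omit [DecidableEq σ] in
lemma HS_le_gs {I : Ideal (MvPolynomial σ ℚ)} (hI : Hom I) {f : MvPolynomial σ ℚ} {w : ℕ}
    (hw : 0 < w) (hf : f.IsHomogeneous w) :
    CLe (HS I) (gs w * HS (I ⊔ Ideal.span {f})) := by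
  have h1 := HS_split I hI f w hf
  have h2 : CLe (HS I * (1 - PowerSeries.X ^ w)) (HS (I ⊔ Ideal.span {f})) := by
    have h3 : HS (I ⊔ Ideal.span {f}) = HS I * (1 - PowerSeries.X ^ w) +
        PowerSeries.X ^ w * (HS I - HS (col I f)) := by
      linear_combination (-1 : PowerSeries ℚ) * h1
    rw [h3]
    intro i
    rw [map_add]
    have h4 : CLe 0 (PowerSeries.X ^ w * (HS I - HS (col I f))) := by
      apply CLe.mul_nonneg (CLe_X_pow w)
      intro j
      rw [map_sub, map_zero, sub_nonneg]
      exact HS_mono (le_col I f) j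
    have := h4 i
    rw [map_zero] at this
    linarith
  have h5 := CLe.mul_left (CLe_gs w) h2
  have h6 : gs w * (HS I * (1 - PowerSeries.X ^ w)) = HS I := by
    rw [mul_left_comm, gs_mul w hw, mul_one]
  rwa [h6] at h5

omit [DecidableEq σ] in
lemma HS_le_prod {ι : Type} [DecidableEq ι] (f : ι → MvPolynomial σ ℚ) (w : ι → ℕ)
    (hw : ∀ x, 0 < w x) (hf : ∀ x, (f x).IsHomogeneous (w x)) (s : Finset ι) :
    CLe (HS (⊥ : Ideal (MvPolynomial σ ℚ)))
      ((∏ x ∈ s, gs (w x)) * HS (Ideal.span (f '' (s : Set ι)))) := by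
  induction s using Finset.induction_on with
  | empty =>
    rw [prod_empty, one_mul, coe_empty, Set.image_empty, Ideal.span_empty]
    exact CLe.refl _
  | insert y s hy ih =>
    refine ih.trans ?_
    rw [prod_insert hy, coe_insert, Set.image_insert_eq, Ideal.span_insert, sup_comm,
      mul_comm (gs (w y)), mul_assoc]
    refine CLe.mul_left ?_ (HS_le_gs (hom_span ?_) (hw y) (hf y))
    · clear ih hy
      induction s using Finset.induction_on with
      | empty => rw [prod_empty]; exact CLe_one
      | insert z s hz ih => rw [prod_insert hz]; exact CLe.mul_nonneg (CLe_gs _) ih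
    · rintro p ⟨x, _, rfl⟩
      exact ⟨w x, hf x⟩

end

end Pool.Agent.Helper81.Batch
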