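import Pool.Agent.Helper81.Batch.CI

/-!
Counting exponent vectors fixed by a permutation, and the graded trace on the polynomial ring.
-/

open MvPolynomial Finset

namespace Pool.Agent.Helper81.Batch

noncomputable section

section count

variable {ι : Type} [Fintype ι] [DecidableEq ι]

/-- The set of cycles (including fixed points) of a permutation. -/
def Cyc (π : Equiv.Perm ι) : Type := Quotient (Equiv.Perm.SameCycle.setoid π)

instance (π : Equiv.Perm ι) : Finite (Cyc π) :=
  inferInstanceAs (Finite (Quotient (Equiv.Perm.SameCycle.setoid π)))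

instance instFintypeCyc (π : Equiv.Perm ι) : Fintype (Cyc π) := Fintype.ofFinite _

instance instDecCyc (π : Equiv.Perm ι) : DecidableEq (Cyc π) := Classical.decEq _

/-- The cycle of `x`. -/
def cyc (π : Equiv.Perm ι) (x : ι) : Cyc π := Quotient.mk (Equiv.Perm.SameCycle.setoid π) x

omit [Fintype ι] [DecidableEq ι] in
lemma cyc_eq (π : Equiv.Perm ι) (x y : ι) : cyc π x = cyc π y ↔ π.SameCycle x y := Quotient.eq

omit [Fintype ι] [DecidableEq ι] in
lemma cyc_surj (π : Equiv.Perm ι) (c : Cyc π) : ∃ x, cyc π x = c :=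
  ⟨Quotient.out c, Quotient.out_eq c⟩

/-- A representative. -/
def rep (π : Equiv.Perm ι) (c : Cyc π) : ι := Quotient.out c

omit [Fintype ι] [DecidableEq ι] in
lemma cyc_rep (π : Equiv.Perm ι) (c : Cyc π) : cyc π (rep π c) = c := Quotient.out_eq c

omit [Fintype ι] [DecidableEq ι] in
lemma fixed_of_same {π : Equiv.Perm ι} {a : ι → ℕ} (h : ∀ x, a (π x) = a x) {x y : ι}
    (hxy : cyc π x = cyc π y) : a x = a y := by
  rw [cyc_eq] at hxy
  obtain ⟨n, rfl⟩ := hxy
  have h1 : ∀ (n : ℕ) x, a ((π ^ n) x) = a x := by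
    intro n
    induction n with
    | zero => intro x; rfl
    | succ n ih => intro x; rw [pow_succ', Equiv.Perm.mul_apply, h, ih]
  cases n with
  | ofNat n => exact (h1 n x).symm
  | negSucc n =>
    have h2 := h1 (n + 1) ((π ^ (Int.negSucc n)) x)
    rw [zpow_negSucc, ← Equiv.Perm.mul_apply, mul_inv_cancel, Equiv.Perm.one_apply] at h2
    rw [zpow_negSucc]
    exact h2

/-- Total weight of a cycle. -/
def cw (π : Equiv.Perm ι) (w : ι → ℕ) (c : Cyc π) : ℕ := ∑ x ∈ univ.filter (fun x => cyc π x = c), w x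

omit [DecidableEq ι] in
lemma cw_pos (π : Equiv.Perm ι) {w : ι → ℕ} (hw : ∀ x, 0 < w x) (c : Cyc π) : 0 < cw π w c := by
  obtain ⟨x, hx⟩ := cyc_surj π c
  exact Finset.sum_pos (fun y _ => hw y) ⟨x, by simp [hx]⟩

/-- Weight of an exponent vector. -/
def wt (w : ι → ℕ) (a : ι → ℕ) : ℕ := ∑ x, w x * a x

/-- Exponent vectors of weight at most `i`. -/
def Ew (w : ι → ℕ) (i : ℕ) : Finset (ι → ℕ) :=
  (Fintype.piFinset fun _ => range (i + 1)).filter (fun a => wt w a ≤ i)

lemma mem_Ew {w : ι → ℕ} (hw : ∀ x, 0 < w x) {a : ι → ℕ} {i : ℕ} : a ∈ Ew w i ↔ wt w a ≤ i := by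
  unfold Ew
  rw [mem_filter, Fintype.mem_piFinset]
  constructor
  · exact fun h => h.2
  · intro h
    refine ⟨fun x => ?_, h⟩
    rw [mem_range, Nat.lt_succ_iff]
    calc a x = 1 * a x := (one_mul _).symm
      _ ≤ w x * a x := Nat.mul_le_mul_right _ (hw x)
      _ ≤ wt w a := Finset.single_le_sum (f := fun x => w x * a x) (fun _ _ => Nat.zero_le _)
        (mem_univ x)
      _ ≤ i := h

/-- Number of `π`-invariant exponent vectors of weight `i`. -/
def cnt (π : Equiv.Perm ι) (w : ι → ℕ) (i : ℕ) : ℕ :=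
  ((Ew w i).filter (fun a => (∀ x, a (π x) = a x) ∧ wt w a = i)).card

omit [DecidableEq ι] in
lemma wt_eq_cyc (π : Equiv.Perm ι) (w : ι → ℕ) (a : ι → ℕ) (a' : Cyc π → ℕ)
    (h : ∀ x, a x = a' (cyc π x)) : wt w a = ∑ c, cw π w c * a' c := by
  unfold wt cw
  rw [← Finset.sum_fiberwise (s := univ) (g := cyc π) (f := fun x => w x * a x)]
  refine Finset.sum_congr rfl fun c _ => ?_
  rw [Finset.sum_mul]
  refine Finset.sum_congr rfl fun x hx => ?_
  rw [h, (mem_filter.1 hx).2]

theorem cnt_gf (π : Equiv.Perm ι) {w : ι → ℕ} (hw : ∀ x, 0 < w x) :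
    PowerSeries.mk (fun i => (cnt π w i : ℚ)) = ∏ c : Cyc π, gs (cw π w c) := by
  ext i
  rw [PowerSeries.coeff_mk, PowerSeries.coeff_prod]
  simp only [gs, PowerSeries.coeff_mk]
  have e : ∀ l ∈ finsuppAntidiag (univ : Finset (Cyc π)) i,
      (∏ c : Cyc π, if cw π w c ∣ l c then (1 : ℚ) else 0) =
        if (∀ c, cw π w c ∣ l c) then 1 else 0 := by
    intro l _
    rw [Finset.prod_boole]
    simp
  rw [Finset.sum_congr rfl e, Finset.sum_boole]
  congr 1
  unfold cnt
  refine Finset.card_nbij' (fun a => Finsupp.equivFunOnFinite.symm (fun c => cw π w c * a (rep π c)))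
    (fun l x => l (cyc π x) / cw π w (cyc π x)) ?_ ?_ ?_ ?_
  · intro a ha
    rw [mem_coe, mem_filter] at ha
    obtain ⟨_, h1, h2⟩ := ha
    rw [mem_coe, mem_filter, mem_finsuppAntidiag]
    refine ⟨⟨?_, subset_univ _⟩, fun c => ?_⟩
    · simp only [Finsupp.equivFunOnFinite_symm_apply_apply]
      rw [← wt_eq_cyc π w a (fun c => a (rep π c)), h2]
      intro x
      exact fixed_of_same h1 (cyc_rep π (cyc π x)).symm
    · simp only [Finsupp.equivFunOnFinite_symm_apply_apply]
      exact dvd_mul_right _ _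
  · intro l hl
    rw [mem_coe, mem_filter, mem_finsuppAntidiag] at hl
    obtain ⟨⟨h1, _⟩, h2⟩ := hl
    rw [mem_coe, mem_filter]
    have h3 : wt w (fun x => l (cyc π x) / cw π w (cyc π x)) = i := by
      rw [wt_eq_cyc π w _ (fun c => l c / cw π w c) (fun _ => rfl), ← h1]
      exact Finset.sum_congr rfl fun c hc => Nat.mul_div_cancel' (h2 c)
    refine ⟨(mem_Ew hw).2 h3.le, ?_, h3⟩
    intro x
    have : cyc π (π x) = cyc π x := by
      rw [cyc_eq]; exact (Equiv.Perm.sameCycle_apply_left).2 (Equiv.Perm.SameCycle.refl π x)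
    simp only [this]
  · intro a ha
    rw [mem_coe, mem_filter] at ha
    obtain ⟨_, h1, h2⟩ := ha
    funext x
    simp only [Finsupp.equivFunOnFinite_symm_apply_apply]
    rw [Nat.mul_div_cancel_left _ (cw_pos π hw _)]
    exact fixed_of_same h1 (cyc_rep π (cyc π x))
  · intro l hl
    rw [mem_coe, mem_filter, mem_finsuppAntidiag] at hl
    obtain ⟨⟨h1, _⟩, h2⟩ := hl
    apply Finsupp.ext
    intro c
    simp only [Finsupp.equivFunOnFinite_symm_apply_apply]
    rw [cyc_rep, Nat.mul_div_cancel' (h2 c)]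

end count

variable {σ : Type} [Fintype σ] [DecidableEq σ]

/-- Trace computed from a resolution of the identity. -/
lemma trace_resolution {M A : Type} [AddCommGroup M] [Module ℚ M] [FiniteDimensional ℚ M]
    (s : Finset A) (f : A → M →ₗ[ℚ] ℚ) (v : A → M) (h : ∀ x, ∑ a ∈ s, f a x • v a = x)
    (φ : M →ₗ[ℚ] M) : LinearMap.trace ℚ M φ = ∑ a ∈ s, f a (φ (v a)) := by
  have e : φ = ∑ a ∈ s, (f a).smulRight (φ (v a)) := by
    apply LinearMap.ext
    intro x
    conv_lhs => rw [← h x]
    rw [map_sum, LinearMap.sum_apply]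
    refine Finset.sum_congr rfl fun a _ => ?_
    rw [map_smul, LinearMap.smulRight_apply]
  conv_lhs => rw [e]
  rw [map_sum]
  exact Finset.sum_congr rfl fun a _ => LinearMap.trace_smulRight _ _

/-- Exponent vector as a finitely supported function. -/
abbrev fs (a : σ → ℕ) : σ →₀ ℕ := Finsupp.equivFunOnFinite.symm a

lemma trace_gP (g : Equiv.Perm σ) (i : ℕ) :
    LinearMap.trace ℚ (P σ i) (gP g i) = (cnt g (fun _ => 1) i : ℚ) := by
  have hdeg : ∀ a : σ → ℕ, (fs a).degree = wt (fun _ => 1) a := by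
    intro a
    rw [Finsupp.degree_eq_sum]
    unfold wt
    refine Finset.sum_congr rfl fun x _ => ?_
    simp
  have hw : ∀ x : σ, 0 < (fun _ => 1 : σ → ℕ) x := fun _ => one_pos
  let s : Finset (σ → ℕ) := (Ew (fun _ => 1) i).filter (fun a => wt (fun _ => 1) a = i)
  let v : (σ → ℕ) → P σ i := fun a =>
    if h : wt (fun _ => 1) a = i then ⟨monomial (fs a) 1, isHomogeneous_monomial _ ((hdeg a).trans h)⟩
    else 0
  have hv : ∀ a, wt (fun _ => 1) a = i → ((v a : P σ i) : MvPolynomial σ ℚ) = monomial (fs a) 1 := by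
    intro a ha
    simp only [v, dif_pos ha]
  let f : (σ → ℕ) → P σ i →ₗ[ℚ] ℚ := fun a => (lcoeff ℚ (fs a)) ∘ₗ (P σ i).subtype
  have hf : ∀ a (p : P σ i), f a p = coeff (fs a) (p : MvPolynomial σ ℚ) := fun a p => rfl
  have hid : ∀ p : P σ i, ∑ a ∈ s, f a p • v a = p := by
    intro p
    apply Subtype.ext
    rw [Submodule.coe_sum]
    apply MvPolynomial.ext
    intro d
    rw [coeff_sum]
    have hd : fs (fun x => d x) = d := Finsupp.ext fun x => rfl
    have e : ∀ a ∈ s, coeff d (((f a p • v a : P σ i)) : MvPolynomial σ ℚ) =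
        if a = (fun x => d x) then coeff d (p : MvPolynomial σ ℚ) else 0 := by
      intro a ha
      rw [Submodule.coe_smul, coeff_smul, hv a (mem_filter.1 ha).2, coeff_monomial, hf]
      by_cases h : a = (fun x => d x)
      · subst h
        rw [if_pos hd, if_pos rfl, smul_eq_mul, mul_one, hd]
      · rw [if_neg h, if_neg, smul_zero]
        intro h'
        apply h
        rw [← h']
        rfl
    rw [Finset.sum_congr rfl e, Finset.sum_ite_eq']
    split_ifs with h
    · rfl
    · symm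
      have hp : (p : MvPolynomial σ ℚ).IsHomogeneous i := p.2
      apply hp.coeff_eq_zero
      intro hdi
      apply h
      have : wt (fun _ => 1) (fun x => d x) = i := by rw [← hdeg, hd, hdi]
      rw [mem_filter]
      exact ⟨(mem_Ew hw).2 this.le, this⟩
  rw [trace_resolution s f v hid (gP g i)]
  have e : ∀ a ∈ s, f a (gP g i (v a)) = if (∀ x, a (g x) = a x) then 1 else 0 := by
    intro a ha
    rw [hf, gP_coe, hv a (mem_filter.1 ha).2, rename_monomial, coeff_monomial]
    have h1 : ∀ x, (Finsupp.mapDomain g (fs a)) (g x) = a x := fun x => by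
      rw [Finsupp.mapDomain_apply g.injective]; rfl
    by_cases h : ∀ x, a (g x) = a x
    · rw [if_pos h, if_pos]
      apply Finsupp.ext
      intro x
      obtain ⟨y, rfl⟩ := g.surjective x
      rw [h1]
      exact (h y).symm
    · rw [if_neg h, if_neg]
      intro h'
      apply h
      intro x
      rw [← h1 x, h']
      rfl
  rw [Finset.sum_congr rfl e, Finset.sum_boole]
  congr 1
  unfold cnt
  congr 1
  ext a
  simp only [s, mem_filter]
  tauto

omit [Fintype σ] [DecidableEq σ] in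
lemma Stable_bot (g : Equiv.Perm σ) : Stable g (⊥ : Ideal (MvPolynomial σ ℚ)) := by
  intro p hp
  rw [Ideal.mem_bot] at hp ⊢
  rw [hp, map_zero]

theorem HT_bot (g : Equiv.Perm σ) :
    HT g ⊥ (Stable_bot g) = ∏ c : Cyc g, gs (cw g (fun _ => 1) c) := by
  rw [← cnt_gf g (fun _ => one_pos)]
  ext i
  simp only [HT, PowerSeries.coeff_mk]
  rw [← trace_gP]
  have hb : Idl (⊥ : Ideal (MvPolynomial σ ℚ)) i = ⊥ := by
    rw [eq_bot_iff]
    intro p hp
    rw [mem_Idl, Ideal.mem_bot] at hp
    rw [Submodule.mem_bot]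
    exact Subtype.ext hp
  have h1 : (⊥ : Submodule ℚ (P σ i)) ≤ (⊥ : Submodule ℚ (P σ i)).comap (gP g i) := bot_le
  rw [tq_congr g i hb _ h1]
  unfold tq
  have := LinearMap.trace_conj' (gP g i) (Submodule.quotEquivOfEqBot (⊥ : Submodule ℚ (P σ i)) rfl).symm
  rw [← this]
  congr 1
  apply LinearMap.ext
  intro x
  obtain ⟨p, rfl⟩ := Submodule.Quotient.mk_surjective _ x
  rw [Submodule.mapQ_apply, LinearEquiv.conj_apply_apply]
  rfl

end

end Pool.Agent.Helper81.Batch
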