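import Pool.Agent.Helper81.Batch.Main

/-!
Equivariance: the graded trace of an element of the wreath product.
-/

open MvPolynomial Finset

namespace Pool.Agent.Helper81.Batch

noncomputable section

variable {σ : Type} [Fintype σ] [DecidableEq σ]

omit [Fintype σ] [DecidableEq σ] in
lemma rename_el (g : Equiv.Perm σ) (s : Finset σ) (l : ℕ) :
    rename g (el s l) = el (s.map g.toEmbedding) l := by
  have h : PowerSeries.map (rename g : MvPolynomial σ ℚ →ₐ[ℚ] MvPolynomial σ ℚ).toRingHom (Egf s) =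
      Egf (s.map g.toEmbedding) := by
    unfold Egf
    rw [map_prod, prod_map]
    refine Finset.prod_congr rfl fun x _ => ?_
    rw [map_add, map_one, map_mul, PowerSeries.map_C, PowerSeries.map_X]
    congr 3
    exact rename_X _ _
  unfold el
  rw [← h, PowerSeries.coeff_map]
  rfl

omit [Fintype σ] [DecidableEq σ] in
lemma rename_ho (g : Equiv.Perm σ) (s : Finset σ) (l : ℕ) :
    rename g (ho s l) = ho (s.map g.toEmbedding) l := by
  have h : PowerSeries.map (rename g : MvPolynomial σ ℚ →ₐ[ℚ] MvPolynomial σ ℚ).toRingHom (Hgf s) =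
      Hgf (s.map g.toEmbedding) := by
    unfold Hgf
    rw [map_prod, prod_map]
    refine Finset.prod_congr rfl fun x _ => ?_
    ext1 n
    rw [PowerSeries.coeff_map, PowerSeries.coeff_mk, PowerSeries.coeff_mk, map_pow]
    congr 1
    exact rename_X _ _
  unfold ho
  rw [← h, PowerSeries.coeff_map]
  rfl

variable {r d : ℕ} {g : Equiv.Perm (Fin r × Fin d)} {τ : Equiv.Perm (Fin r)}

lemma map_bt (hg : ∀ x, (g x).1 = τ x.1) (c : Fin r) :
    (bt (pb r d) univ c).map g.toEmbedding = bt (pb r d) univ (τ c) := by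
  ext y
  simp only [mem_map, mem_filter, mem_univ, true_and]
  constructor
  · rintro ⟨x, hx, rfl⟩
    rw [← hx]
    exact hg x
  · intro hy
    refine ⟨g.symm y, ?_, g.apply_symm_apply y⟩
    apply τ.injective
    have := hg (g.symm y)
    rw [g.apply_symm_apply] at this
    rw [← hy]
    exact this.symm

lemma stable_Bid (hg : ∀ x, (g x).1 = τ x.1) (D m : ℕ) :
    Stable g (Bid (pb r d) D univ m) := by
  have h : Bid (pb r d) D univ m ≤ (Bid (pb r d) D univ m).comap (rename g) := by
    refine Bid_le ?_ ?_ ?_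
    · intro x hx; exact absurd (mem_univ x) hx
    · intro c l hl
      rw [Ideal.mem_comap, rename_ho, map_bt hg]
      exact ho_mem_Bid _ _ _ _ _ hl
    · intro l hl
      rw [Ideal.mem_comap, rename_el]
      have : (univ : Finset (Fin r × Fin d)).map g.toEmbedding = univ := by
        rw [Finset.map_univ_equiv]
      rw [this]
      exact el_mem_Bid _ _ _ _ hl
  exact fun p hp => h hp

lemma rename_el_univ (g : Equiv.Perm (Fin r × Fin d)) (l : ℕ) :
    rename g (el univ l) = el univ l := by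
  rw [rename_el, Finset.map_univ_equiv]

lemma stable_col (hg : ∀ x, (g x).1 = τ x.1) (D m l : ℕ) :
    Stable g (col (Bid (pb r d) D univ m) (el univ l)) := by
  intro p hp
  rw [mem_col] at hp ⊢
  have := stable_Bid hg D m _ hp
  rwa [map_mul, rename_el_univ] at this

lemma HT_Bid_zero (hr : 0 < r) (hg : ∀ x, (g x).1 = τ x.1) (m : ℕ) :
    HT g (Bid (pb r d) 0 univ m) (stable_Bid hg 0 m) = 0 := by
  apply HT_top
  have := ho_mem_Bid (pb r d) 0 univ m (⟨0, hr⟩ : Fin r) (le_refl 0)
  rwa [ho_zero] at this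

lemma HT_step (hg : ∀ x, (g x).1 = τ x.1) (D m : ℕ) (h1 : m + 1 ≤ r * d)
    (h2 : m + 1 < D + 1 + d) :
    HT g (Bid (pb r d) (D + 1) univ (m + 1)) (stable_Bid hg (D + 1) (m + 1)) =
      HT g (Bid (pb r d) (D + 1) univ m) (stable_Bid hg (D + 1) m) -
        PowerSeries.X ^ (r * d - m) * HT g (Bid (pb r d) D univ m) (stable_Bid hg D m) := by
  have he : Bid (pb r d) (D + 1) univ (m + 1) =
      Bid (pb r d) (D + 1) univ m ⊔ Ideal.span {el univ (r * d - m)} := by
    rw [Bid_succ _ _ _ _ (by rw [card_univ_rd]; omega), card_univ_rd]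
  have hst : Stable g (Bid (pb r d) (D + 1) univ m ⊔ Ideal.span {el univ (r * d - m)}) := by
    rw [← he]; exact stable_Bid hg _ _
  have hs := HT_split g (Bid (pb r d) (D + 1) univ m) (stable_Bid hg _ _) (hom_Bid _ _ _ _)
    (el univ (r * d - m)) _ (el_hom _ _) (rename_el_univ g _) hst (stable_col hg _ _ _)
  have hle : Bid (pb r d) D univ m ≤ col (Bid (pb r d) (D + 1) univ m) (el univ (r * d - m)) := by
    have := el_mul_mem (pb r d) D m univ (by rw [card_univ_rd]; omega)
      (fun c => by rw [card_bt]; omega)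
    rwa [card_univ_rd] at this
  rw [← HT_eq_of_HS hle (HS_col D m h1 h2) g (stable_Bid hg _ _) (stable_col hg _ _ _)] at hs
  have h3 : HT g (Bid (pb r d) (D + 1) univ (m + 1)) (stable_Bid hg (D + 1) (m + 1)) =
      HT g (Bid (pb r d) (D + 1) univ m ⊔ Ideal.span {el univ (r * d - m)}) hst := by
    congr 1
  rw [h3, hs]
  ring

theorem HT_Bid (hr : 0 < r) (hg : ∀ x, (g x).1 = τ x.1) : ∀ m D, m ≤ r * d → m < D + d →
    HT g (Bid (pb r d) D univ m) (stable_Bid hg D m) =
      ∑ T ∈ (Ioc (r * d - m) (r * d)).powerset, (-1) ^ T.card * PowerSeries.X ^ (∑ x ∈ T, x) *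
        HT g (Bid (pb r d) (D - T.card) univ 0) (stable_Bid hg (D - T.card) 0) := by
  intro m
  induction m with
  | zero =>
    intro D _ _
    rw [Nat.sub_zero, Ioc_self, powerset_empty, sum_singleton]
    simp
  | succ m ih =>
    intro D h1 h2
    cases D with
    | zero =>
      rw [HT_Bid_zero hr hg]
      symm
      apply Finset.sum_eq_zero
      intro T _
      have : HT g (Bid (pb r d) (0 - T.card) univ 0) (stable_Bid hg (0 - T.card) 0) = 0 := by
        apply HT_top
        rw [Nat.zero_sub]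
        have := ho_mem_Bid (pb r d) 0 univ 0 (⟨0, hr⟩ : Fin r) (le_refl 0)
        rwa [ho_zero] at this
      rw [this, mul_zero]
    | succ D =>
      have hI : Ioc (r * d - (m + 1)) (r * d) = insert (r * d - m) (Ioc (r * d - m) (r * d)) := by
        ext x
        rw [mem_insert, mem_Ioc, mem_Ioc]
        omega
      have hnot : r * d - m ∉ Ioc (r * d - m) (r * d) := by
        rw [mem_Ioc]; omega
      rw [hI, Finset.sum_powerset_insert hnot, HT_step hg D m h1 h2, ih (D + 1) (by omega) (by omega),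
        ih D (by omega) (by omega), sub_eq_add_neg, Finset.mul_sum, ← Finset.sum_neg_distrib]
      congr 1
      refine Finset.sum_congr rfl fun T hT => ?_
      have hT' : r * d - m ∉ T := fun h => hnot ((mem_powerset.1 hT) h)
      have e1 : (insert (r * d - m) T).card = T.card + 1 := card_insert_of_notMem hT'
      have e2 : ∑ x ∈ insert (r * d - m) T, x = r * d - m + ∑ x ∈ T, x := sum_insert hT'
      have e3 : HT g (Bid (pb r d) (D + 1 - (insert (r * d - m) T).card) univ 0)
          (stable_Bid hg (D + 1 - (insert (r * d - m) T).card) 0) =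
          HT g (Bid (pb r d) (D - T.card) univ 0) (stable_Bid hg (D - T.card) 0) := by
        congr 2
        rw [e1]; omega
      rw [e3, e1, e2, pow_succ, pow_add]
      ring

/-- Number of elements of a cycle. -/
def len {ι : Type} [Fintype ι] (π : Equiv.Perm ι) (c : Cyc π) : ℕ :=
  (univ.filter (fun x => cyc π x = c)).card

lemma cw_one {ι : Type} [Fintype ι] (π : Equiv.Perm ι) (c : Cyc π) :
    cw π (fun _ => 1) c = len π c := by
  unfold cw len
  rw [Finset.sum_const, smul_eq_mul, mul_one]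

/-- The permutation of the generators. -/
abbrev gperm (d : ℕ) (τ : Equiv.Perm (Fin r)) : Equiv.Perm (Fin r × Fin d) :=
  Equiv.prodCongr τ (Equiv.refl _)

lemma gperm_pow (τ : Equiv.Perm (Fin r)) (n : ℤ) (x : Fin r × Fin d) :
    ((gperm d τ) ^ n) x = ((τ ^ n) x.1, x.2) := by
  have h : ∀ (n : ℕ) (x : Fin r × Fin d), ((gperm d τ) ^ n) x = ((τ ^ n) x.1, x.2) := by
    intro n
    induction n with
    | zero => intro x; rfl
    | succ n ih =>
      intro x
      rw [pow_succ', Equiv.Perm.mul_apply, ih, pow_succ', Equiv.Perm.mul_apply]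
      rfl
  cases n with
  | ofNat n => exact h n x
  | negSucc n =>
    rw [zpow_negSucc, zpow_negSucc, Equiv.Perm.inv_eq_iff_eq, h]
    simp

lemma prod_gperm (τ : Equiv.Perm (Fin r)) (D : ℕ) (F : ℕ → PowerSeries ℚ) :
    ∏ c : Cyc (gperm d τ), F (cw (gperm d τ) (gw D) c) =
      ∏ c : Cyc τ, ∏ i ∈ range d, F (len τ c * (D + i)) := by
  have key : ∏ c : Cyc τ, ∏ i ∈ range d, F (len τ c * (D + i)) =
      ∏ p : Cyc τ × Fin d, F (len τ p.1 * (D + p.2)) := by
    rw [Fintype.prod_prod_type]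
    refine Finset.prod_congr rfl fun c _ => ?_
    rw [Finset.prod_range]
  rw [key]
  symm
  have hsame : ∀ x y : Fin r × Fin d, cyc (gperm d τ) x = cyc (gperm d τ) y ↔
      cyc τ x.1 = cyc τ y.1 ∧ x.2 = y.2 := by
    intro x y
    rw [cyc_eq, cyc_eq]
    constructor
    · rintro ⟨n, hn⟩
      rw [gperm_pow] at hn
      exact ⟨⟨n, by rw [← hn]⟩, by rw [← hn]⟩
    · rintro ⟨⟨n, hn⟩, h2⟩
      refine ⟨n, ?_⟩
      rw [gperm_pow, hn, h2]
  refine Fintype.prod_bijective (fun p : Cyc τ × Fin d => cyc (gperm d τ) (rep τ p.1, p.2))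
    ⟨?_, ?_⟩ _ _ ?_
  · rintro ⟨c, j⟩ ⟨c', j'⟩ h
    have h' := (hsame _ _).1 h
    simp only [cyc_rep] at h'
    rw [Prod.mk.injEq]
    exact h'
  · intro c
    obtain ⟨x, rfl⟩ := cyc_surj _ c
    refine ⟨(cyc τ x.1, x.2), ?_⟩
    simp only
    rw [hsame]
    exact ⟨cyc_rep _ _, rfl⟩
  · rintro ⟨c, j⟩
    simp only
    congr 1
    unfold cw len gw
    have hset : univ.filter (fun x => cyc (gperm d τ) x = cyc (gperm d τ) (rep τ c, j)) =
        (univ.filter (fun i => cyc τ i = c)).map ⟨fun i : Fin r => (i, j), fun a b h => by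
          simpa using h⟩ := by
      ext ⟨i, j'⟩
      simp only [mem_filter, mem_univ, true_and, mem_map, Function.Embedding.coeFn_mk,
        Prod.mk.injEq, hsame, cyc_rep]
      constructor
      · rintro ⟨h1, h2⟩; exact ⟨i, h1, rfl, h2.symm⟩
      · rintro ⟨a, h1, rfl, h2⟩; exact ⟨h1, h2.symm⟩
    rw [hset, sum_map]
    simp only [Function.Embedding.coeFn_mk]
    rw [Finset.sum_const, smul_eq_mul]

lemma prod_gs_mul {ι : Type} [Fintype ι] (w : ι → ℕ) (hw : ∀ x, 0 < w x) :
    (∏ x, gs (w x)) * ∏ x, (1 - PowerSeries.X ^ (w x) : PowerSeries ℚ) = 1 := by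
  rw [← Finset.prod_mul_distrib]
  apply Finset.prod_eq_one
  intro x _
  rw [gs_mul _ (hw x)]

lemma len_pos {ι : Type} [Fintype ι] [DecidableEq ι] (π : Equiv.Perm ι) (c : Cyc π) :
    0 < len π c := by
  rw [← cw_one]
  exact cw_pos π (fun _ => one_pos) c

theorem HT_CI (hg : ∀ x, (g x).1 = τ x.1) (D : ℕ) (hD : 0 < D) :
    HT g (Bid (pb r d) D univ 0) (stable_Bid hg D 0) *
        ∏ c : Cyc g, (1 - PowerSeries.X ^ (len g c)) =
      ∏ c : Cyc τ, ∏ i ∈ range d, (1 - PowerSeries.X ^ (len τ c * (D + i))) := by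
  have hw : ∀ x : Fin r × Fin d, 0 < gw D x := fun x => by unfold gw; omega
  have hst : Stable g (Ideal.span (Set.range (gen (r := r) (d := d) D))) := by
    rw [← Bid_zero_eq D hD]; exact stable_Bid hg D 0
  have h1 := HT_free (gen (r := r) (d := d) D) (gw D) hw (fun x => ho_hom _ _) (gperm d τ)
    (fun x => rfl) g (fun x => by
      unfold gen
      rw [rename_ho, map_bt hg]
      rfl) (by rw [← Bid_zero_eq D hD]; exact HS_CI D hD) hst
  have h2 : HT g (Ideal.span (Set.range (gen (r := r) (d := d) D))) hst =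
      HT g (Bid (pb r d) D univ 0) (stable_Bid hg D 0) := by
    congr 1
    exact (Bid_zero_eq D hD).symm
  rw [h2, HT_bot] at h1
  have h3 := prod_gs_mul (fun c : Cyc g => cw g (fun _ => 1) c) (fun c => cw_pos g (fun _ => one_pos) c)
  have h4 := prod_gs_mul (fun c : Cyc (gperm d τ) => cw (gperm d τ) (gw D) c)
    (fun c => cw_pos _ hw c)
  have h5 := prod_gperm (d := d) τ D (fun n => 1 - PowerSeries.X ^ n)
  rw [← h5]
  have h6 : ∀ c, (1 - PowerSeries.X ^ (len g c) : PowerSeries ℚ) =
      1 - PowerSeries.X ^ (cw g (fun _ => 1) c) := fun c => by rw [cw_one]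
  rw [Finset.prod_congr rfl (fun c _ => h6 c)]
  set A := ∏ c : Cyc g, gs (cw g (fun _ => 1) c)
  set A' := ∏ c : Cyc g, (1 - PowerSeries.X ^ (cw g (fun _ => 1) c) : PowerSeries ℚ)
  set B := ∏ c : Cyc (gperm d τ), gs (cw (gperm d τ) (gw D) c)
  set B' := ∏ c : Cyc (gperm d τ), (1 - PowerSeries.X ^ (cw (gperm d τ) (gw D) c) : PowerSeries ℚ)
  set Hh := HT g (Bid (pb r d) D univ 0) (stable_Bid hg D 0)
  calc Hh * A' = (B * B') * (Hh * A') := by rw [h4, one_mul]
    _ = B' * ((B * Hh) * A') := by ring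
    _ = B' := by rw [← h1, h3, mul_one]

theorem main_formula (hr : 0 < r) (hd : 0 < d) (hg : ∀ x, (g x).1 = τ x.1) (k : ℕ) (hdk : d ≤ k)
    (hk : k ≤ r * d) :
    HT g (Bid (pb r d) (k + 1 - d) univ k) (stable_Bid hg (k + 1 - d) k) *
        ∏ c : Cyc g, (1 - PowerSeries.X ^ (len g c)) =
      ∑ T ∈ (Ioc (r * d - k) (r * d)).powerset, (-1) ^ T.card * PowerSeries.X ^ (∑ x ∈ T, x) *
        ∏ c : Cyc τ, ∏ i ∈ range d, (1 - PowerSeries.X ^ (len τ c * (k - T.card - i))) := by
  rw [HT_Bid hr hg k (k + 1 - d) hk (by omega), Finset.sum_mul]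
  refine Finset.sum_congr rfl fun T _ => ?_
  rw [mul_assoc]
  congr 1
  rcases Nat.lt_or_ge T.card (k + 1 - d) with h | h
  · rw [HT_CI hg _ (by omega)]
    refine Finset.prod_congr rfl fun c _ => ?_
    rw [← Finset.prod_range_reflect]
    refine Finset.prod_congr rfl fun i hi => ?_
    have := mem_range.1 hi
    congr 3
    omega
  · have h1 : HT g (Bid (pb r d) (k + 1 - d - T.card) univ 0)
        (stable_Bid hg (k + 1 - d - T.card) 0) = 0 := by
      apply HT_top
      have h0 : k + 1 - d - T.card = 0 := by omega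
      rw [h0]
      have := ho_mem_Bid (pb r d) 0 univ 0 (⟨0, hr⟩ : Fin r) (le_refl 0)
      rwa [ho_zero] at this
    rw [h1, zero_mul]
    symm
    apply Finset.prod_eq_zero (mem_univ (cyc τ (⟨0, hr⟩ : Fin r)))
    apply Finset.prod_eq_zero (i := k - T.card) (mem_range.2 (by omega))
    rw [Nat.sub_self, mul_zero, pow_zero, sub_self]

end

end Pool.Agent.Helper81.Batch
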