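import Pool.Agent.Helper81.Batch.Count

/-!
The graded trace on a complete intersection whose generators are permuted.
-/

open MvPolynomial Finset

namespace Pool.Agent.Helper81.Batch

noncomputable section

variable {σ : Type} [Fintype σ] [DecidableEq σ]

omit [Fintype σ] [DecidableEq σ] in
lemma gP_pow (g : Equiv.Perm σ) (i n : ℕ) : (gP g i : Module.End ℚ (P σ i)) ^ n = gP (g ^ n) i := by
  induction n with
  | zero =>
    rw [pow_zero, pow_zero]
    apply LinearMap.ext
    intro p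
    apply Subtype.ext
    rw [gP_coe, Equiv.Perm.coe_one, rename_id_apply]
    rfl
  | succ n ih =>
    rw [pow_succ, ih]
    apply LinearMap.ext
    intro p
    apply Subtype.ext
    rw [Module.End.mul_apply, gP_coe, gP_coe, gP_coe, rename_rename, pow_succ]
    rfl

omit [DecidableEq σ] in
lemma exists_compl (g : Equiv.Perm σ) (i : ℕ) (N : Submodule ℚ (P σ i))
    (h : N ≤ N.comap (gP g i)) :
    ∃ A : Submodule ℚ (P σ i), A ≤ A.comap (gP g i) ∧ IsCompl N A := by
  have hn : 0 < orderOf g := orderOf_pos g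
  have hsf : Squarefree (Polynomial.X ^ (orderOf g) - 1 : Polynomial ℚ) := by
    apply Polynomial.Separable.squarefree
    rw [Polynomial.X_pow_sub_one_separable_iff]
    exact_mod_cast hn.ne'
  have hz : Polynomial.aeval (gP g i : Module.End ℚ (P σ i))
      (Polynomial.X ^ (orderOf g) - 1 : Polynomial ℚ) = 0 := by
    rw [map_sub, map_pow, Polynomial.aeval_X, map_one, gP_pow, pow_orderOf_eq_one, sub_eq_zero]
    apply LinearMap.ext
    intro p
    apply Subtype.ext
    rw [gP_coe, Equiv.Perm.coe_one, rename_id_apply]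
    rfl
  have hss := Module.End.isSemisimple_of_squarefree_aeval_eq_zero hsf hz
  obtain ⟨A, hA, hc⟩ := (Module.End.isSemisimple_iff.1 hss) N h
  exact ⟨A, hA, hc⟩

omit [DecidableEq σ] in
lemma exists_compl' (g : Equiv.Perm σ) (I : Ideal (MvPolynomial σ ℚ)) (hst : Stable g I) (i : ℕ) :
    ∃ A : Submodule ℚ (MvPolynomial σ ℚ), A ≤ P σ i ∧ (∀ v ∈ A, rename g v ∈ A) ∧
      (∀ p ∈ P σ i, ∃ v ∈ A, p - v ∈ I) ∧ (∀ v ∈ A, v ∈ I → v = 0) := by
  obtain ⟨A, hA, hc⟩ := exists_compl g i (Idl I i) (hst.idl i)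
  refine ⟨A.map (P σ i).subtype, ?_, ?_, ?_, ?_⟩
  · rintro _ ⟨v, _, rfl⟩
    exact v.2
  · rintro _ ⟨v, hv, rfl⟩
    exact ⟨gP g i v, hA hv, rfl⟩
  · intro p hp
    have h1 : (⟨p, hp⟩ : P σ i) ∈ Idl I i ⊔ A := by rw [hc.sup_eq_top]; exact Submodule.mem_top
    obtain ⟨u, hu, v, hv, huv⟩ := Submodule.mem_sup.1 h1
    refine ⟨v, ⟨v, hv, rfl⟩, ?_⟩
    have h2 : p = (u : MvPolynomial σ ℚ) + v := (congrArg Subtype.val huv).symm
    rw [h2, add_sub_cancel_right]
    exact hu
  · rintro _ ⟨v, hv, rfl⟩ hvI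
    have h1 : v ∈ Idl I i ⊓ A := ⟨hvI, hv⟩
    rw [hc.inf_eq_bot, Submodule.mem_bot] at h1
    rw [h1]
    rfl

section resolution

variable {M A : Type} [AddCommGroup M] [Module ℚ M] [FiniteDimensional ℚ M] [Fintype A]
  {V : A → Type} [∀ a, AddCommGroup (V a)] [∀ a, Module ℚ (V a)] [∀ a, FiniteDimensional ℚ (V a)]

lemma trace_resolution' (inj : ∀ a, V a →ₗ[ℚ] M) (pr : ∀ a, M →ₗ[ℚ] V a)
    (h : ∀ x, ∑ a, inj a (pr a x) = x) (φ : M →ₗ[ℚ] M) :
    LinearMap.trace ℚ M φ = ∑ a, LinearMap.trace ℚ (V a) (pr a ∘ₗ (φ ∘ₗ inj a)) := by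
  have e : φ = ∑ a, (φ ∘ₗ inj a) ∘ₗ pr a := by
    apply LinearMap.ext
    intro x
    conv_lhs => rw [← h x]
    rw [map_sum, LinearMap.sum_apply]
    rfl
  conv_lhs => rw [e]
  rw [map_sum]
  exact Finset.sum_congr rfl fun a _ => LinearMap.trace_comp_comm' _ _

end resolution

section free

variable {ι : Type} [Fintype ι] [DecidableEq ι]

/-- A monomial in the `f x`. -/
def mon (f : ι → MvPolynomial σ ℚ) (a : ι → ℕ) : MvPolynomial σ ℚ := ∏ x, f x ^ a x

omit [Fintype σ] [DecidableEq σ] [DecidableEq ι] in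
lemma mon_hom {f : ι → MvPolynomial σ ℚ} {w : ι → ℕ} (hf : ∀ x, (f x).IsHomogeneous (w x))
    (a : ι → ℕ) : (mon f a).IsHomogeneous (wt w a) := by
  unfold mon wt
  apply IsHomogeneous.prod
  intro x _
  exact (hf x).pow (a x)

omit [Fintype σ] [DecidableEq σ] in
lemma mul_mon (f : ι → MvPolynomial σ ℚ) (a : ι → ℕ) (x : ι) :
    f x * mon f a = mon f (Function.update a x (a x + 1)) := by
  unfold mon
  rw [← Finset.mul_prod_erase univ _ (mem_univ x),
    ← Finset.mul_prod_erase univ (fun y => f y ^ (Function.update a x (a x + 1)) y) (mem_univ x),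
    Function.update_self, pow_succ', mul_assoc]
  congr 2
  refine Finset.prod_congr rfl fun y hy => ?_
  rw [Function.update_of_ne (ne_of_mem_erase hy)]

lemma wt_update (w : ι → ℕ) (a : ι → ℕ) (x : ι) :
    wt w (Function.update a x (a x + 1)) = w x + wt w a := by
  unfold wt
  rw [← Finset.add_sum_erase univ _ (mem_univ x),
    ← Finset.add_sum_erase univ (fun y => w y * a y) (mem_univ x),
    Function.update_self]
  have : ∀ y ∈ univ.erase x, w y * Function.update a x (a x + 1) y = w y * a y := by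
    intro y hy
    rw [Function.update_of_ne (ne_of_mem_erase hy)]
  rw [Finset.sum_congr rfl this]
  ring

/-- Grouping by weight. -/
lemma sum_Ew (π : Equiv.Perm ι) {w : ι → ℕ} (hw : ∀ x, 0 < w x) (i : ℕ) (t : ℕ → ℚ) :
    ∑ a ∈ (Ew w i).filter (fun a => ∀ x, a (π x) = a x), t (i - wt w a) =
      PowerSeries.coeff i (PowerSeries.mk (fun i => (cnt π w i : ℚ)) * PowerSeries.mk t) := by
  rw [PowerSeries.coeff_mul, Finset.Nat.sum_antidiagonal_eq_sum_range_succ_mk]
  rw [← Finset.sum_fiberwise_of_maps_to (t := range i.succ) (g := fun a => wt w a)]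
  · refine Finset.sum_congr rfl fun u hu => ?_
    rw [PowerSeries.coeff_mk, PowerSeries.coeff_mk]
    have e : ((Ew w i).filter (fun a => ∀ x, a (π x) = a x)).filter (fun a => wt w a = u) =
        (Ew w u).filter (fun a => (∀ x, a (π x) = a x) ∧ wt w a = u) := by
      ext a
      rw [mem_filter, mem_filter, mem_filter, mem_Ew hw, mem_Ew hw]
      have := mem_range.1 hu
      constructor
      · rintro ⟨⟨_, h1⟩, h2⟩
        exact ⟨h2.le, h1, h2⟩
      · rintro ⟨_, h1, h2⟩
        exact ⟨⟨by omega, h1⟩, h2⟩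
    rw [e, Finset.sum_congr rfl (g := fun _ => t (i - u))]
    · rw [Finset.sum_const, nsmul_eq_mul]
      rfl
    · intro a ha
      rw [(mem_filter.1 ha).2.2]
  · intro a ha
    rw [mem_range, Nat.lt_succ_iff]
    exact (mem_Ew hw).1 (mem_filter.1 ha).1

/-- Inclusion of one summand. -/
def inj (f : ι → MvPolynomial σ ℚ) (w : ι → ℕ) (hf : ∀ x, (f x).IsHomogeneous (w x))
    (A : ℕ → Submodule ℚ (MvPolynomial σ ℚ)) (hA : ∀ i, A i ≤ P σ i) (i : ℕ) (a : ↥(Ew w i)) :
    A (i - wt w a.1) →ₗ[ℚ] P σ i :=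
  LinearMap.codRestrict (P σ i)
    ((LinearMap.mulLeft ℚ (mon f a.1)) ∘ₗ (A (i - wt w a.1)).subtype)
    (fun v => by
      have h1 : wt w a.1 ≤ i := (mem_filter.1 a.2).2
      have h2 : (v : MvPolynomial σ ℚ).IsHomogeneous (i - wt w a.1) := hA _ v.2
      have h3 := (mon_hom hf a.1).mul h2
      rw [Nat.add_sub_cancel' h1] at h3
      exact h3)

omit [Fintype σ] [DecidableEq σ] in
@[simp] lemma inj_coe (f : ι → MvPolynomial σ ℚ) (w : ι → ℕ) (hf : ∀ x, (f x).IsHomogeneous (w x))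
    (A : ℕ → Submodule ℚ (MvPolynomial σ ℚ)) (hA : ∀ i, A i ≤ P σ i) (i : ℕ) (a : ↥(Ew w i))
    (v : A (i - wt w a.1)) :
    ((inj f w hf A hA i a v : P σ i) : MvPolynomial σ ℚ) = mon f a.1 * (v : MvPolynomial σ ℚ) := rfl

/-- Span of the products. -/
def Bs (f : ι → MvPolynomial σ ℚ) (w : ι → ℕ) (A : ℕ → Submodule ℚ (MvPolynomial σ ℚ)) (i : ℕ) :
    Submodule ℚ (MvPolynomial σ ℚ) :=
  Submodule.span ℚ {p | ∃ (a : ι → ℕ) (j : ℕ) (v : MvPolynomial σ ℚ), v ∈ A j ∧ wt w a + j = i ∧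
    p = mon f a * v}

omit [Fintype σ] [DecidableEq σ] in
lemma mul_mem_Bs (f : ι → MvPolynomial σ ℚ) (w : ι → ℕ) (A : ℕ → Submodule ℚ (MvPolynomial σ ℚ))
    (j : ℕ) (x : ι) {q : MvPolynomial σ ℚ} (hq : q ∈ Bs f w A j) :
    f x * q ∈ Bs f w A (w x + j) := by
  induction hq using Submodule.span_induction with
  | mem q hq =>
    obtain ⟨a, j', v, hv, hj, rfl⟩ := hq
    refine Submodule.subset_span ⟨Function.update a x (a x + 1), j', v, hv, ?_, ?_⟩
    · rw [wt_update]; omega
    · rw [← mul_assoc, mul_mon]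
  | zero => rw [mul_zero]; exact zero_mem _
  | add y z _ _ hy hz => rw [mul_add]; exact add_mem hy hz
  | smul c y _ hy => rw [mul_smul_comm]; exact Submodule.smul_mem _ _ hy

omit [Fintype σ] [DecidableEq σ] in
lemma mem_Bs (f : ι → MvPolynomial σ ℚ) (w : ι → ℕ) (hw : ∀ x, 0 < w x)
    (hf : ∀ x, (f x).IsHomogeneous (w x)) (A : ℕ → Submodule ℚ (MvPolynomial σ ℚ))
    (hAP : ∀ i, A i ≤ P σ i)
    (hA : ∀ i, ∀ p ∈ P σ i, ∃ v ∈ A i, p - v ∈ Ideal.span (Set.range f)) :
    ∀ (i : ℕ) (p : MvPolynomial σ ℚ), p ∈ P σ i → p ∈ Bs f w A i := by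
  intro i
  induction i using Nat.strong_induction_on with
  | _ i ih =>
    intro p hp
    obtain ⟨v, hv, hu⟩ := hA i p hp
    rw [Ideal.mem_span_range_iff_exists_fun] at hu
    obtain ⟨c, hc⟩ := hu
    have hv' : v ∈ Bs f w A i := by
      refine Submodule.subset_span ⟨fun _ => 0, i, v, hv, ?_, ?_⟩
      · unfold wt; simp
      · unfold mon; simp
    have hu' : p - v ∈ Bs f w A i := by
      have h1 : homogeneousComponent i (p - v) = p - v :=
        homogeneousComponent_eq_self (sub_mem hp (hAP i hv))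
      have h2 : p - v = ∑ x, c x * f x := hc.symm
      rw [← h1, h2, map_sum]
      refine Submodule.sum_mem _ fun x _ => ?_
      rw [mul_comm]
      rcases Nat.lt_or_ge i (w x) with h3 | h3
      · rw [comp_mul_of_lt (hf x) h3]; exact zero_mem _
      · obtain ⟨j, rfl⟩ := Nat.exists_eq_add_of_le h3
        rw [comp_mul (hf x)]
        exact mul_mem_Bs f w A j x (ih j (by have := hw x; omega) _ (homogeneousComponent_mem j _))
    have := add_mem hu' hv'
    rwa [sub_add_cancel] at this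

/-- The map from the sum of all pieces. -/
def Phi (f : ι → MvPolynomial σ ℚ) (w : ι → ℕ) (hf : ∀ x, (f x).IsHomogeneous (w x))
    (A : ℕ → Submodule ℚ (MvPolynomial σ ℚ)) (hA : ∀ i, A i ≤ P σ i) (i : ℕ) :
    (∀ a : ↥(Ew w i), A (i - wt w a.1)) →ₗ[ℚ] P σ i :=
  ∑ a, inj f w hf A hA i a ∘ₗ LinearMap.proj a

omit [Fintype σ] [DecidableEq σ] in
lemma Phi_apply (f : ι → MvPolynomial σ ℚ) (w : ι → ℕ) (hf : ∀ x, (f x).IsHomogeneous (w x))
    (A : ℕ → Submodule ℚ (MvPolynomial σ ℚ)) (hA : ∀ i, A i ≤ P σ i) (i : ℕ)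
    (v : ∀ a : ↥(Ew w i), A (i - wt w a.1)) :
    Phi f w hf A hA i v = ∑ a, inj f w hf A hA i a (v a) := by
  unfold Phi
  rw [LinearMap.sum_apply]
  rfl

omit [Fintype σ] [DecidableEq σ] in
lemma Phi_single (f : ι → MvPolynomial σ ℚ) (w : ι → ℕ) (hf : ∀ x, (f x).IsHomogeneous (w x))
    (A : ℕ → Submodule ℚ (MvPolynomial σ ℚ)) (hA : ∀ i, A i ≤ P σ i) (i : ℕ) (a : ↥(Ew w i))
    (v : A (i - wt w a.1)) :
    Phi f w hf A hA i (Pi.single a v) = inj f w hf A hA i a v := by
  rw [Phi_apply, Finset.sum_eq_single a]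
  · rw [Pi.single_eq_same]
  · intro b _ hb
    rw [Pi.single_eq_of_ne hb, map_zero]
  · intro h; exact absurd (mem_univ a) h

omit [Fintype σ] [DecidableEq σ] in
lemma Phi_surj (f : ι → MvPolynomial σ ℚ) (w : ι → ℕ) (hw : ∀ x, 0 < w x)
    (hf : ∀ x, (f x).IsHomogeneous (w x)) (A : ℕ → Submodule ℚ (MvPolynomial σ ℚ))
    (hAP : ∀ i, A i ≤ P σ i)
    (hA : ∀ i, ∀ p ∈ P σ i, ∃ v ∈ A i, p - v ∈ Ideal.span (Set.range f)) (i : ℕ) :
    Function.Surjective (Phi f w hf A hAP i) := by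
  intro p
  have h1 := mem_Bs f w hw hf A hAP hA i p p.2
  have h2 : Bs f w A i ≤ (LinearMap.range (Phi f w hf A hAP i)).map (P σ i).subtype := by
    unfold Bs
    rw [Submodule.span_le]
    rintro q ⟨a, j, v, hv, hj, rfl⟩
    obtain rfl : j = i - wt w a := by omega
    have ha : a ∈ Ew w i := (mem_Ew hw).2 (by omega)
    refine ⟨inj f w hf A hAP i ⟨a, ha⟩ ⟨v, hv⟩, ⟨Pi.single ⟨a, ha⟩ ⟨v, hv⟩, ?_⟩, ?_⟩
    · exact Phi_single f w hf A hAP i ⟨a, ha⟩ ⟨v, hv⟩
    · rfl
  obtain ⟨q, ⟨v, hv⟩, hq⟩ := h2 h1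
  refine ⟨v, ?_⟩
  rw [hv]
  exact Subtype.ext hq

omit [DecidableEq ι] in
lemma prod_cyc_one (w : ι → ℕ) :
    ∏ c : Cyc (1 : Equiv.Perm ι), gs (cw 1 w c) = ∏ x, gs (w x) := by
  symm
  have hinj : ∀ x y : ι, cyc (1 : Equiv.Perm ι) x = cyc 1 y → x = y := by
    intro x y h
    rw [cyc_eq] at h
    exact Equiv.Perm.sameCycle_one.1 h
  refine Fintype.prod_bijective (cyc (1 : Equiv.Perm ι)) ⟨fun x y h => hinj x y h, cyc_surj 1⟩ _ _ ?_
  intro x
  congr 1
  unfold cw
  have : univ.filter (fun y => cyc (1 : Equiv.Perm ι) y = cyc 1 x) = {x} := by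
    ext y
    rw [mem_filter, mem_singleton]
    constructor
    · exact fun h => hinj _ _ h.2
    · rintro rfl; exact ⟨mem_univ _, rfl⟩
  rw [this, sum_singleton]

omit [DecidableEq σ] in
lemma coeff_HS_bot (i : ℕ) : PowerSeries.coeff i (HS (⊥ : Ideal (MvPolynomial σ ℚ))) =
    (Module.finrank ℚ (P σ i) : ℚ) := by
  have h := coeff_HS_add (⊥ : Ideal (MvPolynomial σ ℚ)) i
  have hb : Idl (⊥ : Ideal (MvPolynomial σ ℚ)) i = ⊥ := by
    rw [eq_bot_iff]
    intro p hp
    rw [mem_Idl, Ideal.mem_bot] at hp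
    rw [Submodule.mem_bot]
    exact Subtype.ext hp
  rw [hb, finrank_bot, Nat.cast_zero, add_zero] at h
  exact h

omit [DecidableEq σ] in
theorem HT_free (f : ι → MvPolynomial σ ℚ) (w : ι → ℕ) (hw : ∀ x, 0 < w x)
    (hf : ∀ x, (f x).IsHomogeneous (w x)) (π : Equiv.Perm ι) (hwπ : ∀ x, w (π x) = w x)
    (g : Equiv.Perm σ) (hg : ∀ x, rename g (f x) = f (π x))
    (hHS : HS (⊥ : Ideal (MvPolynomial σ ℚ)) = (∏ x, gs (w x)) * HS (Ideal.span (Set.range f)))
    (hst : Stable g (Ideal.span (Set.range f))) :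
    HT g ⊥ (Stable_bot g) =
      (∏ c : Cyc π, gs (cw π w c)) * HT g (Ideal.span (Set.range f)) hst := by
  classical
  set I := Ideal.span (Set.range f) with hI
  choose A hAP hAg hA' hdis using fun i => exists_compl' g I hst i
  have hfin : ∀ j, FiniteDimensional ℚ (A j) := fun j =>
    Submodule.finiteDimensional_of_le (hAP j)
  -- comparison with the quotient
  have hbq : ∀ j, Function.Bijective ((Idl I j).mkQ ∘ₗ Submodule.inclusion (hAP j)) := by
    intro j
    constructor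
    · rw [injective_iff_map_eq_zero]
      intro v hv
      rw [LinearMap.comp_apply, Submodule.mkQ_apply, Submodule.Quotient.mk_eq_zero] at hv
      exact Subtype.ext (hdis j v v.2 hv)
    · intro x
      obtain ⟨p, rfl⟩ := Submodule.Quotient.mk_surjective _ x
      obtain ⟨v, hv, hpv⟩ := hA' j p p.2
      refine ⟨⟨v, hv⟩, ?_⟩
      rw [LinearMap.comp_apply, Submodule.mkQ_apply]
      symm
      rw [Submodule.Quotient.eq]
      exact hpv
  let eq : ∀ j, A j ≃ₗ[ℚ] (P σ j ⧸ Idl I j) := fun j => LinearEquiv.ofBijective _ (hbq j)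
  have heq : ∀ j (v : A j), eq j v = Submodule.Quotient.mk (Submodule.inclusion (hAP j) v) :=
    fun j v => rfl
  -- the Hilbert series of the complement
  have hfr : ∀ j, (Module.finrank ℚ (A j) : ℚ) = PowerSeries.coeff j (HS I) := by
    intro j
    rw [coeff_HS, (eq j).finrank_eq]
  have hsurj := fun i => Phi_surj f w hw hf A hAP hA' i
  have hdim : ∀ i, Module.finrank ℚ (∀ a : ↥(Ew w i), A (i - wt w a.1)) =
      Module.finrank ℚ (P σ i) := by
    intro i
    have h1 : (Module.finrank ℚ (∀ a : ↥(Ew w i), A (i - wt w a.1)) : ℚ) =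
        PowerSeries.coeff i (HS (⊥ : Ideal (MvPolynomial σ ℚ))) := by
      rw [Module.finrank_pi_fintype ℚ, Nat.cast_sum]
      have h2 := sum_Ew (1 : Equiv.Perm ι) hw i (fun j => PowerSeries.coeff j (HS I))
      have h3 : PowerSeries.mk (fun j => PowerSeries.coeff j (HS I)) = HS I := by
        ext j; rw [PowerSeries.coeff_mk]
      rw [cnt_gf 1 hw, prod_cyc_one, h3, ← hHS] at h2
      rw [← h2]
      have h4 : (Ew w i).filter (fun a => ∀ x, a ((1 : Equiv.Perm ι) x) = a x) = Ew w i := by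
        apply Finset.filter_true_of_mem
        intro a _ x
        rfl
      rw [h4, ← Finset.sum_coe_sort (Ew w i)]
      exact Finset.sum_congr rfl fun a _ => hfr _
    rw [coeff_HS_bot] at h1
    exact_mod_cast h1
  have hbij : ∀ i, Function.Bijective (Phi f w hf A hAP i) := by
    intro i
    exact ⟨(LinearMap.injective_iff_surjective_of_finrank_eq_finrank (hdim i)).2 (hsurj i), hsurj i⟩
  -- the restricted actions
  let gA : ∀ j, A j →ₗ[ℚ] A j := fun j => (rename g).toLinearMap.restrict (fun x hx => hAg j x hx)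
  have hgA : ∀ j (v : A j), ((gA j v : A j) : MvPolynomial σ ℚ) = rename g (v : MvPolynomial σ ℚ) :=
    fun j v => rfl
  have htq : ∀ j, LinearMap.trace ℚ (A j) (gA j) = tq g j (Idl I j) (hst.idl j) := by
    intro j
    unfold tq
    have hh := hst.idl j
    rw [← LinearMap.trace_conj' (gA j) (eq j)]
    congr 1
    apply LinearMap.ext
    intro x
    obtain ⟨v, rfl⟩ := (eq j).surjective x
    rw [LinearEquiv.conj_apply_apply, LinearEquiv.symm_apply_apply, heq, heq, Submodule.mapQ_apply]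
    rfl
  ext i
  rw [← cnt_gf π hw]
  have hHTI : HT g I hst = PowerSeries.mk (fun j => LinearMap.trace ℚ (A j) (gA j)) := by
    ext j
    rw [PowerSeries.coeff_mk, htq, HT, PowerSeries.coeff_mk]
  rw [hHTI, ← sum_Ew π hw i (fun j => LinearMap.trace ℚ (A j) (gA j))]
  rw [HT_bot, ← cnt_gf g (fun _ => one_pos), PowerSeries.coeff_mk, ← trace_gP]
  let e : (∀ a : ↥(Ew w i), A (i - wt w a.1)) ≃ₗ[ℚ] P σ i :=
    LinearEquiv.ofBijective (Phi f w hf A hAP i) (hbij i)
  have he : ∀ v, e v = Phi f w hf A hAP i v := fun v => rfl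
  let pr : ∀ a : ↥(Ew w i), P σ i →ₗ[ℚ] A (i - wt w a.1) :=
    fun a => LinearMap.proj a ∘ₗ e.symm.toLinearMap
  have hpr : ∀ (a b : ↥(Ew w i)) (v : A (i - wt w b.1)),
      pr a (inj f w hf A hAP i b v) = (Pi.single b v : ∀ a : ↥(Ew w i), A (i - wt w a.1)) a := by
    intro a b v
    have : e.symm (inj f w hf A hAP i b v) = Pi.single b v := by
      rw [LinearEquiv.symm_apply_eq, he, Phi_single]
    simp only [pr, LinearMap.comp_apply, LinearEquiv.coe_coe, this, LinearMap.proj_apply]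
  have hres : ∀ x, ∑ a, inj f w hf A hAP i a (pr a x) = x := by
    intro x
    have := Phi_apply f w hf A hAP i (e.symm x)
    rw [← he, LinearEquiv.apply_symm_apply] at this
    exact this.symm
  rw [trace_resolution' (fun a => inj f w hf A hAP i a) pr hres (gP g i)]
  rw [Finset.sum_filter, ← Finset.sum_coe_sort (Ew w i)]
  refine Finset.sum_congr rfl fun a _ => ?_
  split_ifs with hfix
  · congr 1
    apply LinearMap.ext
    intro v
    change pr a (gP g i (inj f w hf A hAP i a v)) = gA _ v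
    have h1 : gP g i (inj f w hf A hAP i a v) = inj f w hf A hAP i a (gA _ v) := by
      apply Subtype.ext
      rw [gP_coe, inj_coe, inj_coe, map_mul]
      congr 1
      unfold mon
      rw [map_prod]
      rw [← Equiv.prod_comp π (fun x => f x ^ a.1 x)]
      refine Finset.prod_congr rfl fun x _ => ?_
      rw [map_pow, hg, hfix]
    rw [h1, hpr, Pi.single_eq_same]
  · have hzero : pr a ∘ₗ (gP g i ∘ₗ inj f w hf A hAP i a) = 0 := by
      apply LinearMap.ext
      intro v
      change pr a (gP g i (inj f w hf A hAP i a v)) = 0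
      set a' : ι → ℕ := fun x => a.1 (π.symm x) with ha'
      have hwt : wt w a' = wt w a.1 := by
        unfold wt
        rw [← Equiv.sum_comp π]
        refine Finset.sum_congr rfl fun x _ => ?_
        rw [hwπ, ha']
        simp only [Equiv.symm_apply_apply]
      have hmem : a' ∈ Ew w i := by
        rw [mem_Ew hw, hwt]; exact (mem_Ew hw).1 a.2
      have hcast : ∀ j j' : ℕ, j' = j → ∀ u : A j, ∃ u' : A j',
          (u' : MvPolynomial σ ℚ) = u := by
        rintro j j' rfl u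
        exact ⟨u, rfl⟩
      obtain ⟨u', hu'⟩ := hcast (i - wt w a.1) (i - wt w a') (by rw [hwt]) (gA _ v)
      have h1 : gP g i (inj f w hf A hAP i a v) = inj f w hf A hAP i ⟨a', hmem⟩ u' := by
        apply Subtype.ext
        rw [gP_coe, inj_coe, inj_coe, map_mul, hu']
        congr 1
        unfold mon
        rw [map_prod]
        rw [← Equiv.prod_comp π (fun x => f x ^ a' x)]
        refine Finset.prod_congr rfl fun x _ => ?_
        rw [map_pow, hg, ha']
        simp only [Equiv.symm_apply_apply]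
      rw [h1, hpr, Pi.single_eq_of_ne]
      intro hne
      apply hfix
      intro x
      have h2 : a.1 = a' := congrArg Subtype.val hne
      have h3 := congrFun h2 (π x)
      rw [ha'] at h3
      simp only [Equiv.symm_apply_apply] at h3
      exact h3
    rw [hzero, map_zero]

end free

end

end Pool.Agent.Helper81.Batch
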