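import Mathlib

/-!
Graded quotients of a polynomial ring and the graded trace of a permutation of the variables.
-/

open MvPolynomial Finset

namespace Pool.Agent.Helper81.Batch

noncomputable section

variable {σ : Type} [Fintype σ] [DecidableEq σ]

/-- The homogeneous polynomials of degree `i`. -/
abbrev P (σ : Type) (i : ℕ) : Submodule ℚ (MvPolynomial σ ℚ) := homogeneousSubmodule σ ℚ i

omit [DecidableEq σ] in
lemma finP (i : ℕ) : FiniteDimensional ℚ (P σ i) :=
  Module.Finite.of_fg (homogeneousSubmodule_fg σ ℚ i)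

instance instFinP (i : ℕ) : FiniteDimensional ℚ (P σ i) := finP i

/-- The permutation `g` acting on the degree `i` part. -/
def gP (g : Equiv.Perm σ) (i : ℕ) : P σ i →ₗ[ℚ] P σ i :=
  (rename g).toLinearMap.restrict (fun p hp => by
    have hp' : p.IsHomogeneous i := hp
    exact hp'.rename_isHomogeneous)

omit [Fintype σ] [DecidableEq σ] in
@[simp] lemma gP_coe (g : Equiv.Perm σ) (i : ℕ) (p : P σ i) :
    ((gP g i p : P σ i) : MvPolynomial σ ℚ) = rename g (p : MvPolynomial σ ℚ) := rfl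

/-- Trace of `g` on the quotient of the degree `i` part by a stable subspace. -/
def tq (g : Equiv.Perm σ) (i : ℕ) (N : Submodule ℚ (P σ i)) (h : N ≤ N.comap (gP g i)) : ℚ :=
  LinearMap.trace ℚ (P σ i ⧸ N) (N.mapQ N (gP g i) h)

omit [Fintype σ] [DecidableEq σ] in
lemma tq_congr (g : Equiv.Perm σ) (i : ℕ) {N N' : Submodule ℚ (P σ i)} (hN : N = N')
    (h : N ≤ N.comap (gP g i)) (h' : N' ≤ N'.comap (gP g i)) : tq g i N h = tq g i N' h' := by
  subst hN; rfl

/-- The degree `i` part of an ideal. -/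
def Idl (I : Ideal (MvPolynomial σ ℚ)) (i : ℕ) : Submodule ℚ (P σ i) :=
  (I.restrictScalars ℚ).comap (P σ i).subtype

omit [Fintype σ] [DecidableEq σ] in
@[simp] lemma mem_Idl (I : Ideal (MvPolynomial σ ℚ)) (i : ℕ) (p : P σ i) :
    p ∈ Idl I i ↔ (p : MvPolynomial σ ℚ) ∈ I := Iff.rfl

/-- The ideal `I` is stable under `g`. -/
def Stable (g : Equiv.Perm σ) (I : Ideal (MvPolynomial σ ℚ)) : Prop :=
  ∀ p ∈ I, rename g p ∈ I

omit [Fintype σ] [DecidableEq σ] in
lemma Stable.idl {g : Equiv.Perm σ} {I : Ideal (MvPolynomial σ ℚ)} (h : Stable g I) (i : ℕ) :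
    Idl I i ≤ (Idl I i).comap (gP g i) := fun _ hp => h _ hp

omit [Fintype σ] [DecidableEq σ] in
lemma stable_one (I : Ideal (MvPolynomial σ ℚ)) : Stable (1 : Equiv.Perm σ) I := by
  intro p hp
  have : rename ((1 : Equiv.Perm σ) : σ → σ) p = p := by
    rw [Equiv.Perm.coe_one, rename_id_apply]
  rwa [this]

/-- Graded trace of `g` on `ℚ[x]/I`. -/
def HT (g : Equiv.Perm σ) (I : Ideal (MvPolynomial σ ℚ)) (h : Stable g I) : PowerSeries ℚ :=
  PowerSeries.mk fun i => tq g i (Idl I i) (h.idl i)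

/-- Hilbert series. -/
def HS (I : Ideal (MvPolynomial σ ℚ)) : PowerSeries ℚ := HT 1 I (stable_one I)

section trace

variable {N M Q : Type} [AddCommGroup N] [Module ℚ N] [AddCommGroup M] [Module ℚ M]
  [AddCommGroup Q] [Module ℚ Q] [FiniteDimensional ℚ N] [FiniteDimensional ℚ M]
  [FiniteDimensional ℚ Q]

lemma trace_exact (ι : N →ₗ[ℚ] M) (π : M →ₗ[ℚ] Q) (hι : Function.Injective ι)
    (hπ : Function.Surjective π) (h0 : ∀ y, π (ι y) = 0) (hex : ∀ x, π x = 0 → ∃ y, ι y = x)
    (a : N →ₗ[ℚ] N) (b : M →ₗ[ℚ] M) (c : Q →ₗ[ℚ] Q) (h1 : ∀ y, b (ι y) = ι (a y))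
    (h2 : ∀ x, π (b x) = c (π x)) :
    LinearMap.trace ℚ M b = LinearMap.trace ℚ Q c + LinearMap.trace ℚ N a := by
  obtain ⟨s, hs⟩ := LinearMap.exists_rightInverse_of_surjective π (LinearMap.range_eq_top.2 hπ)
  obtain ⟨p0, hp0⟩ := LinearMap.exists_leftInverse_of_injective ι (LinearMap.ker_eq_bot.2 hι)
  have hs' : ∀ q, π (s q) = q := fun q => by
    have := LinearMap.congr_fun hs q; simpa using this
  have hp0' : ∀ y, p0 (ι y) = y := fun y => by
    have := LinearMap.congr_fun hp0 y; simpa using this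
  set p : M →ₗ[ℚ] N := p0 ∘ₗ (LinearMap.id - s ∘ₗ π) with hp
  have hid : ∀ x, ι (p x) + s (π x) = x := by
    intro x
    obtain ⟨y, hy⟩ := hex (x - s (π x)) (by rw [map_sub, hs', sub_self])
    have : p x = y := by
      rw [hp]; simp only [LinearMap.comp_apply, LinearMap.sub_apply, LinearMap.id_apply]
      rw [← hy, hp0']
    rw [this, hy]; abel
  have hpι : ∀ y, p (ι y) = y := by
    intro y
    rw [hp]; simp only [LinearMap.comp_apply, LinearMap.sub_apply, LinearMap.id_apply]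
    rw [h0, map_zero, sub_zero, hp0']
  have hb : b = (b ∘ₗ s) ∘ₗ π + (b ∘ₗ ι) ∘ₗ p := by
    ext x
    simp only [LinearMap.add_apply, LinearMap.comp_apply]
    rw [← map_add, add_comm, hid]
  have hc : π ∘ₗ (b ∘ₗ s) = c := by
    ext x
    simp only [LinearMap.comp_apply]
    rw [h2, hs']
  have ha : p ∘ₗ (b ∘ₗ ι) = a := by
    ext x
    simp only [LinearMap.comp_apply]
    rw [h1, hpι]
  calc LinearMap.trace ℚ M b
      = LinearMap.trace ℚ M ((b ∘ₗ s) ∘ₗ π) + LinearMap.trace ℚ M ((b ∘ₗ ι) ∘ₗ p) := by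
        rw [← map_add, ← hb]
    _ = LinearMap.trace ℚ Q (π ∘ₗ (b ∘ₗ s)) + LinearMap.trace ℚ N (p ∘ₗ (b ∘ₗ ι)) := by
        rw [LinearMap.trace_comp_comm' (b ∘ₗ s) π, LinearMap.trace_comp_comm' (b ∘ₗ ι) p]
    _ = _ := by rw [hc, ha]

end trace

/-! ### homogeneous ideals -/

/-- `I` contains the homogeneous components of its elements. -/
def Hom (I : Ideal (MvPolynomial σ ℚ)) : Prop := ∀ p ∈ I, ∀ i, homogeneousComponent i p ∈ I

attribute [local instance] MvPolynomial.gradedAlgebra in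
omit [Fintype σ] [DecidableEq σ] in
lemma comp_mul {f q : MvPolynomial σ ℚ} {w : ℕ} (hf : f.IsHomogeneous w) (j : ℕ) :
    homogeneousComponent (w + j) (f * q) = f * homogeneousComponent j q := by
  have h := DirectSum.coe_decompose_mul_add_of_left_mem (homogeneousSubmodule σ ℚ) (i := w)
    (j := j) (a := f) (b := q) hf
  have e : ∀ (x : MvPolynomial σ ℚ) (i : ℕ),
      ((DirectSum.decompose (homogeneousSubmodule σ ℚ) x i : homogeneousSubmodule σ ℚ i) :
        MvPolynomial σ ℚ) = homogeneousComponent i x := fun x i =>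
    decomposition.decompose'_apply x i
  rwa [e, e] at h

attribute [local instance] MvPolynomial.gradedAlgebra in
omit [Fintype σ] [DecidableEq σ] in
lemma comp_mul_of_lt {f q : MvPolynomial σ ℚ} {w : ℕ} (hf : f.IsHomogeneous w) {i : ℕ}
    (hi : i < w) : homogeneousComponent i (f * q) = 0 := by
  have h := DirectSum.coe_decompose_mul_of_left_mem_of_not_le (homogeneousSubmodule σ ℚ) (i := w)
    (n := i) (a := f) (b := q) hf (by omega)
  have e : ∀ (x : MvPolynomial σ ℚ) (i : ℕ),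
      ((DirectSum.decompose (homogeneousSubmodule σ ℚ) x i : homogeneousSubmodule σ ℚ i) :
        MvPolynomial σ ℚ) = homogeneousComponent i x := fun x i =>
    decomposition.decompose'_apply x i
  rwa [e] at h

/-- The colon ideal `(I : f)`. -/
def col (I : Ideal (MvPolynomial σ ℚ)) (f : MvPolynomial σ ℚ) : Ideal (MvPolynomial σ ℚ) :=
  Submodule.comap (LinearMap.mulLeft (MvPolynomial σ ℚ) f) I

omit [Fintype σ] [DecidableEq σ] in
@[simp] lemma mem_col (I : Ideal (MvPolynomial σ ℚ)) (f p : MvPolynomial σ ℚ) :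
    p ∈ col I f ↔ f * p ∈ I := Iff.rfl

omit [Fintype σ] [DecidableEq σ] in
lemma Hom.col {I : Ideal (MvPolynomial σ ℚ)} (h : Hom I) {f : MvPolynomial σ ℚ} {w : ℕ}
    (hf : f.IsHomogeneous w) : Hom (col I f) := by
  intro p hp i
  rw [mem_col] at hp ⊢
  rw [← comp_mul hf]
  exact h _ hp _

omit [Fintype σ] [DecidableEq σ] in
lemma Hom.sup {I J : Ideal (MvPolynomial σ ℚ)} (h : Hom I) (h' : Hom J) : Hom (I ⊔ J) := by
  intro p hp i
  obtain ⟨a, ha, b, hb, rfl⟩ := Submodule.mem_sup.1 hp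
  rw [map_add]
  exact Submodule.add_mem_sup (h a ha i) (h' b hb i)

omit [Fintype σ] [DecidableEq σ] in
lemma hom_span {S : Set (MvPolynomial σ ℚ)} (hS : ∀ s ∈ S, ∃ w, s.IsHomogeneous w) :
    Hom (Ideal.span S) := by
  intro p hp
  induction hp using Submodule.span_induction with
  | mem s hs =>
    intro i
    obtain ⟨w, hw⟩ := hS s hs
    rw [homogeneousComponent_of_mem hw]
    split_ifs
    · exact Ideal.subset_span hs
    · exact zero_mem _
  | zero => intro i; rw [map_zero]; exact zero_mem _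
  | add x y _ _ hx hy => intro i; rw [map_add]; exact add_mem (hx i) (hy i)
  | smul a x _ hx =>
    intro i
    have hx' : x = ∑ j ∈ range (x.totalDegree + 1), homogeneousComponent j x :=
      (sum_homogeneousComponent x).symm
    rw [smul_eq_mul, hx', Finset.mul_sum, map_sum]
    refine Ideal.sum_mem _ fun j _ => ?_
    rw [mul_comm]
    rcases lt_or_ge i j with hij | hij
    · rw [comp_mul_of_lt (homogeneousComponent_isHomogeneous j x) hij]; exact zero_mem _
    · obtain ⟨t, rfl⟩ := Nat.exists_eq_add_of_le hij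
      rw [comp_mul (homogeneousComponent_isHomogeneous j x)]
      exact Ideal.mul_mem_right _ _ (hx j)

/-- Multiplication by a homogeneous polynomial. -/
def mulP (f : MvPolynomial σ ℚ) {w : ℕ} (hf : f.IsHomogeneous w) (j : ℕ) :
    P σ j →ₗ[ℚ] P σ (w + j) :=
  (LinearMap.mulLeft ℚ f).restrict (fun p hp => by
    have hp' : p.IsHomogeneous j := hp
    exact hf.mul hp')

omit [Fintype σ] [DecidableEq σ] in
@[simp] lemma mulP_coe (f : MvPolynomial σ ℚ) {w : ℕ} (hf : f.IsHomogeneous w) (j : ℕ)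
    (p : P σ j) : ((mulP f hf j p : P σ (w + j)) : MvPolynomial σ ℚ) = f * p := rfl

omit [Fintype σ] [DecidableEq σ] in
lemma mem_sup_span {I : Ideal (MvPolynomial σ ℚ)} {f p : MvPolynomial σ ℚ} :
    p ∈ I ⊔ Ideal.span {f} ↔ ∃ a ∈ I, ∃ q, p = a + f * q := by
  constructor
  · intro h
    obtain ⟨a, ha, b, hb, rfl⟩ := Submodule.mem_sup.1 h
    obtain ⟨q, rfl⟩ := Ideal.mem_span_singleton'.1 hb
    exact ⟨a, ha, q, by rw [mul_comm]⟩
  · rintro ⟨a, ha, q, rfl⟩
    exact Submodule.add_mem_sup ha (Ideal.mul_mem_right _ _ (Ideal.mem_span_singleton_self f))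

omit [DecidableEq σ] in
lemma HT_split (g : Equiv.Perm σ) (I : Ideal (MvPolynomial σ ℚ)) (hI : Stable g I) (hh : Hom I)
    (f : MvPolynomial σ ℚ) (w : ℕ) (hf : f.IsHomogeneous w) (hgf : rename g f = f)
    (h1 : Stable g (I ⊔ Ideal.span {f})) (h2 : Stable g (col I f)) :
    HT g I hI = HT g (I ⊔ Ideal.span {f}) h1 + PowerSeries.X ^ w * HT g (col I f) h2 := by
  ext i
  rw [map_add, PowerSeries.coeff_X_pow_mul']
  split_ifs with hw
  · obtain ⟨j, rfl⟩ := Nat.exists_eq_add_of_le hw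
    rw [Nat.add_sub_cancel_left]
    simp only [HT, PowerSeries.coeff_mk, tq]
    have hle1 : Idl (col I f) j ≤ (Idl I (w + j)).comap (mulP f hf j) := fun p hp => hp
    have hle2 : Idl I (w + j) ≤ (Idl (I ⊔ Ideal.span {f}) (w + j)).comap LinearMap.id :=
      fun p hp => (le_sup_left : I ≤ I ⊔ Ideal.span {f}) hp
    have h1' := h1.idl (w + j)
    have h2' := h2.idl j
    have hI' := hI.idl (w + j)
    refine trace_exact ((Idl (col I f) j).mapQ (Idl I (w + j)) (mulP f hf j) hle1)
      ((Idl I (w + j)).mapQ (Idl (I ⊔ Ideal.span {f}) (w + j)) LinearMap.id hle2)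
      ?_ ?_ ?_ ?_ _ _ _ ?_ ?_
    · rw [injective_iff_map_eq_zero]
      intro x hx
      obtain ⟨p, rfl⟩ := Submodule.Quotient.mk_surjective _ x
      rw [Submodule.mapQ_apply, Submodule.Quotient.mk_eq_zero] at hx
      rw [Submodule.Quotient.mk_eq_zero]
      exact hx
    · intro x
      obtain ⟨p, rfl⟩ := Submodule.Quotient.mk_surjective _ x
      exact ⟨Submodule.Quotient.mk p, by rw [Submodule.mapQ_apply]; rfl⟩
    · intro x
      obtain ⟨p, rfl⟩ := Submodule.Quotient.mk_surjective _ x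
      rw [Submodule.mapQ_apply, Submodule.mapQ_apply, Submodule.Quotient.mk_eq_zero]
      rw [LinearMap.id_apply, mem_Idl, mulP_coe, mem_sup_span]
      exact ⟨0, zero_mem _, p, by rw [zero_add]⟩
    · intro x hx
      obtain ⟨p, rfl⟩ := Submodule.Quotient.mk_surjective _ x
      rw [Submodule.mapQ_apply, Submodule.Quotient.mk_eq_zero, LinearMap.id_apply, mem_Idl,
        mem_sup_span] at hx
      obtain ⟨a, ha, q, hq⟩ := hx
      refine ⟨Submodule.Quotient.mk ⟨homogeneousComponent j q, homogeneousComponent_mem j q⟩, ?_⟩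
      rw [Submodule.mapQ_apply, Submodule.Quotient.eq, mem_Idl]
      have hc : homogeneousComponent (w + j) (p : MvPolynomial σ ℚ) = p :=
        homogeneousComponent_eq_self p.2
      have : ((mulP f hf j ⟨homogeneousComponent j q, homogeneousComponent_mem j q⟩ - p :
          P σ (w + j)) : MvPolynomial σ ℚ) = - homogeneousComponent (w + j) a := by
        rw [Submodule.coe_sub, mulP_coe, ← hc, hq, map_add, comp_mul hf]
        simp
      rw [this]
      exact neg_mem (hh a ha _)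
    · intro x
      obtain ⟨p, rfl⟩ := Submodule.Quotient.mk_surjective _ x
      have e : gP g (w + j) (mulP f hf j p) = mulP f hf j (gP g j p) := by
        apply Subtype.ext
        rw [gP_coe, mulP_coe, mulP_coe, gP_coe, map_mul, hgf]
      rw [Submodule.mapQ_apply, Submodule.mapQ_apply, Submodule.mapQ_apply, Submodule.mapQ_apply, e]
    · intro x
      obtain ⟨p, rfl⟩ := Submodule.Quotient.mk_surjective _ x
      rw [Submodule.mapQ_apply, Submodule.mapQ_apply, Submodule.mapQ_apply, Submodule.mapQ_apply]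
      rfl
  · rw [add_zero]
    simp only [HT, PowerSeries.coeff_mk]
    apply tq_congr
    apply le_antisymm
    · intro p hp
      exact (le_sup_left : I ≤ I ⊔ Ideal.span {f}) hp
    · intro p hp
      rw [mem_Idl, mem_sup_span] at hp
      obtain ⟨a, ha, q, hq⟩ := hp
      have hc : homogeneousComponent i (p : MvPolynomial σ ℚ) = p :=
        homogeneousComponent_eq_self p.2
      rw [mem_Idl, ← hc, hq, map_add, comp_mul_of_lt hf (by omega), add_zero]
      exact hh a ha _

/-! ### Hilbert series and coefficientwise order -/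

omit [DecidableEq σ] in
lemma coeff_HS (I : Ideal (MvPolynomial σ ℚ)) (i : ℕ) :
    PowerSeries.coeff i (HS I) = (Module.finrank ℚ (P σ i ⧸ Idl I i) : ℚ) := by
  have h1 := (stable_one I).idl i
  have : (Idl I i).mapQ (Idl I i) (gP (1 : Equiv.Perm σ) i) h1 = LinearMap.id := by
    apply LinearMap.ext
    intro x
    obtain ⟨p, rfl⟩ := Submodule.Quotient.mk_surjective _ x
    rw [Submodule.mapQ_apply, LinearMap.id_apply]
    congr 1
    apply Subtype.ext
    rw [gP_coe, Equiv.Perm.coe_one, rename_id_apply]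
  simp only [HS, HT, PowerSeries.coeff_mk, tq]
  rw [this, LinearMap.trace_id]

omit [DecidableEq σ] in
lemma coeff_HS_add (I : Ideal (MvPolynomial σ ℚ)) (i : ℕ) :
    PowerSeries.coeff i (HS I) + (Module.finrank ℚ (Idl I i) : ℚ) =
      (Module.finrank ℚ (P σ i) : ℚ) := by
  rw [coeff_HS, ← Nat.cast_add, Submodule.finrank_quotient_add_finrank]

omit [Fintype σ] [DecidableEq σ] in
lemma Idl_mono {I I' : Ideal (MvPolynomial σ ℚ)} (h : I ≤ I') (i : ℕ) : Idl I i ≤ Idl I' i :=
  fun _ hp => h hp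

omit [DecidableEq σ] in
lemma HS_mono {I I' : Ideal (MvPolynomial σ ℚ)} (h : I ≤ I') (i : ℕ) :
    PowerSeries.coeff i (HS I') ≤ PowerSeries.coeff i (HS I) := by
  have h1 := coeff_HS_add I i
  have h2 := coeff_HS_add I' i
  have h3 : (Module.finrank ℚ (Idl I i) : ℚ) ≤ Module.finrank ℚ (Idl I' i) := by
    exact_mod_cast Submodule.finrank_mono (Idl_mono h i)
  linarith

omit [DecidableEq σ] in
lemma HS_nonneg (I : Ideal (MvPolynomial σ ℚ)) (i : ℕ) : 0 ≤ PowerSeries.coeff i (HS I) := by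
  rw [coeff_HS]; exact Nat.cast_nonneg _

omit [DecidableEq σ] in
lemma Idl_eq_of_HS {I I' : Ideal (MvPolynomial σ ℚ)} (h : I ≤ I') (hs : HS I = HS I') (i : ℕ) :
    Idl I i = Idl I' i := by
  have h1 := coeff_HS_add I i
  have h2 := coeff_HS_add I' i
  rw [hs] at h1
  have h3 : (Module.finrank ℚ (Idl I i) : ℚ) = Module.finrank ℚ (Idl I' i) := by linarith
  exact Submodule.eq_of_le_of_finrank_eq (Idl_mono h i) (by exact_mod_cast h3)

omit [DecidableEq σ] in
lemma HT_eq_of_HS {I I' : Ideal (MvPolynomial σ ℚ)} (h : I ≤ I') (hs : HS I = HS I')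
    (g : Equiv.Perm σ) (hI : Stable g I) (hI' : Stable g I') : HT g I hI = HT g I' hI' := by
  ext i
  simp only [HT, PowerSeries.coeff_mk]
  exact tq_congr g i (Idl_eq_of_HS h hs i) _ _

omit [Fintype σ] [DecidableEq σ] in
lemma HT_top {I : Ideal (MvPolynomial σ ℚ)} (h : (1 : MvPolynomial σ ℚ) ∈ I)
    (g : Equiv.Perm σ) (hI : Stable g I) : HT g I hI = 0 := by
  ext i
  simp only [HT, PowerSeries.coeff_mk, map_zero]
  have e : Idl I i = ⊤ := by
    rw [eq_top_iff]
    intro p _
    rw [mem_Idl, ← mul_one (p : MvPolynomial σ ℚ)]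
    exact Ideal.mul_mem_left _ _ h
  have h1 : (⊤ : Submodule ℚ (P σ i)) ≤ (⊤ : Submodule ℚ (P σ i)).comap (gP g i) := by simp
  rw [tq_congr g i e _ h1]
  unfold tq
  have : (⊤ : Submodule ℚ (P σ i)).mapQ ⊤ (gP g i) h1 = 0 := by
    apply LinearMap.ext
    intro x
    exact Subsingleton.elim _ _
  rw [this, map_zero]

/-- Coefficientwise order. -/
def CLe (a b : PowerSeries ℚ) : Prop := ∀ i, PowerSeries.coeff i a ≤ PowerSeries.coeff i b

lemma CLe.refl (a : PowerSeries ℚ) : CLe a a := fun _ => le_rfl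

lemma CLe.trans {a b c : PowerSeries ℚ} (h : CLe a b) (h' : CLe b c) : CLe a c :=
  fun i => (h i).trans (h' i)

lemma CLe.antisymm {a b : PowerSeries ℚ} (h : CLe a b) (h' : CLe b a) : a = b := by
  ext i; exact le_antisymm (h i) (h' i)

lemma CLe.add {a b c d : PowerSeries ℚ} (h : CLe a b) (h' : CLe c d) : CLe (a + c) (b + d) := by
  intro i; rw [map_add, map_add]; exact add_le_add (h i) (h' i)

lemma CLe.mul_left {a b c : PowerSeries ℚ} (hc : CLe 0 c) (h : CLe a b) :
    CLe (c * a) (c * b) := by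
  intro i
  rw [PowerSeries.coeff_mul, PowerSeries.coeff_mul]
  refine Finset.sum_le_sum fun x _ => mul_le_mul_of_nonneg_left (h _) ?_
  simpa using hc x.1

lemma CLe.mul_nonneg {a b : PowerSeries ℚ} (ha : CLe 0 a) (hb : CLe 0 b) : CLe 0 (a * b) := by
  have := CLe.mul_left ha hb
  rwa [mul_zero] at this

lemma CLe.sum {ι : Type} (s : Finset ι) (a b : ι → PowerSeries ℚ) (h : ∀ j ∈ s, CLe (a j) (b j)) :
    CLe (∑ j ∈ s, a j) (∑ j ∈ s, b j) := by
  intro i
  rw [map_sum, map_sum]
  exact Finset.sum_le_sum fun j hj => h j hj i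

lemma CLe_X_pow (n : ℕ) : CLe 0 (PowerSeries.X ^ n) := by
  intro i
  rw [PowerSeries.coeff_X_pow]
  split_ifs <;> simp

lemma CLe_one : CLe 0 (1 : PowerSeries ℚ) := by
  have := CLe_X_pow 0
  rwa [pow_zero] at this

omit [DecidableEq σ] in
lemma CLe_HS (I : Ideal (MvPolynomial σ ℚ)) : CLe 0 (HS I) := by
  intro i; rw [map_zero]; exact HS_nonneg I i

end

end Pool.Agent.Helper81.Batch
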