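import Pool.Agent.Helper81.Batch.Equi

/-!
Comparison with Mathlib: cycle type, elementary and complete homogeneous symmetric polynomials.
-/

open MvPolynomial Finset

namespace Pool.Agent.Helper81.Batch

noncomputable section

section cycles

variable {ι : Type} [Fintype ι] [DecidableEq ι]

omit [DecidableEq ι] in
lemma len_eq_one {π : Equiv.Perm ι} {x : ι} (hx : π x = x) : len π (cyc π x) = 1 := by
  unfold len
  rw [card_eq_one]
  refine ⟨x, ?_⟩
  ext y
  rw [mem_filter, mem_singleton, cyc_eq]
  constructor
  · rintro ⟨_, h⟩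
    exact ((Equiv.Perm.SameCycle.symm h).eq_of_left hx).symm
  · rintro rfl; exact ⟨mem_univ _, Equiv.Perm.SameCycle.refl _ _⟩

lemma len_eq_support {π : Equiv.Perm ι} {x : ι} (hx : π x ≠ x) :
    len π (cyc π x) = (π.cycleOf x).support.card := by
  unfold len
  congr 1
  ext y
  rw [mem_filter, Equiv.Perm.mem_support_cycleOf_iff' hx, cyc_eq]
  constructor
  · exact fun h => h.2.symm
  · exact fun h => ⟨mem_univ _, h.symm⟩

theorem prod_partition {M : Type} [CommMonoid M] (π : Equiv.Perm ι) (F : ℕ → M) :
    (π.partition.parts.map F).prod = ∏ c : Cyc π, F (len π c) := by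
  classical
  rw [Equiv.Perm.parts_partition, Multiset.map_add, Multiset.prod_add, Multiset.map_replicate,
    Multiset.prod_replicate]
  rw [← Finset.prod_filter_mul_prod_filter_not univ (fun c : Cyc π => π (rep π c) ≠ rep π c)]
  congr 1
  · rw [Equiv.Perm.cycleType_def, Multiset.map_map]
    symm
    refine Finset.prod_bij (fun c _ => π.cycleOf (rep π c)) ?_ ?_ ?_ ?_
    · intro c hc
      rw [Equiv.Perm.cycleOf_mem_cycleFactorsFinset_iff, Equiv.Perm.mem_support]
      exact (mem_filter.1 hc).2
    · intro c hc c' hc' h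
      have h1 := (mem_filter.1 hc).2
      have h2 : rep π c' ∈ (π.cycleOf (rep π c)).support := by
        rw [h, Equiv.Perm.mem_support_cycleOf_iff' (mem_filter.1 hc').2]
      rw [Equiv.Perm.mem_support_cycleOf_iff' h1, ← cyc_eq, cyc_rep, cyc_rep] at h2
      exact h2
    · intro f hf
      obtain ⟨x, hx⟩ := (Equiv.Perm.mem_cycleFactorsFinset_iff.1 hf).1.nonempty_support
      have hx' : x ∈ π.support := Equiv.Perm.mem_cycleFactorsFinset_support_le hf hx
      have hf' : π.cycleOf x = f := (Equiv.Perm.cycle_is_cycleOf hx hf).symm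
      have hs : π.SameCycle x (rep π (cyc π x)) := by
        rw [← cyc_eq, cyc_rep]
      refine ⟨cyc π x, ?_, ?_⟩
      · rw [mem_filter]
        refine ⟨mem_univ _, ?_⟩
        rw [← Equiv.Perm.mem_support]
        rw [Equiv.Perm.mem_support] at hx' ⊢
        intro hfix
        exact hx' ((hs.apply_eq_self_iff).2 hfix)
      · rw [← hs.cycleOf_eq, hf']
    · intro c hc
      have h1 := len_eq_support (mem_filter.1 hc).2
      rw [cyc_rep] at h1
      rw [h1]
      rfl
  · have hone : ∀ c ∈ univ.filter (fun c : Cyc π => ¬ π (rep π c) ≠ rep π c), F (len π c) = F 1 := by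
      intro c hc
      have h1 := not_not.1 (mem_filter.1 hc).2
      have h2 := len_eq_one h1
      rw [cyc_rep] at h2
      rw [h2]
    rw [Finset.prod_congr rfl hone, Finset.prod_const]
    congr 1
    have hcard : Fintype.card ι - π.support.card = (π.supportᶜ).card := by
      rw [card_compl]
    rw [hcard]
    refine Finset.card_bij' (fun x _ => cyc π x) (fun c _ => rep π c) ?_ ?_ ?_ ?_
    · intro x hx
      rw [mem_compl, Equiv.Perm.notMem_support] at hx
      rw [mem_filter, not_not]
      refine ⟨mem_univ _, ?_⟩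
      have hs : π.SameCycle x (rep π (cyc π x)) := by rw [← cyc_eq, cyc_rep]
      exact (hs.apply_eq_self_iff).1 hx
    · intro c hc
      rw [mem_compl, Equiv.Perm.notMem_support]
      exact not_not.1 (mem_filter.1 hc).2
    · intro x hx
      rw [mem_compl, Equiv.Perm.notMem_support] at hx
      have hs : π.SameCycle x (rep π (cyc π x)) := by rw [← cyc_eq, cyc_rep]
      exact (hs.eq_of_left hx).symm
    · intro c _
      exact cyc_rep π c

end cycles

section esymm

variable {σ : Type} [Fintype σ] [DecidableEq σ]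

omit [DecidableEq σ] in
lemma el_univ (l : ℕ) : el (univ : Finset σ) l = esymm σ ℚ l := by
  classical
  unfold el Egf esymm
  rw [Finset.prod_one_add, map_sum, Finset.powersetCard_eq_filter, Finset.sum_filter]
  refine Finset.sum_congr rfl fun t _ => ?_
  rw [Finset.prod_mul_distrib, Finset.prod_const, ← map_prod, PowerSeries.coeff_C_mul,
    PowerSeries.coeff_X_pow]
  by_cases h : t.card = l
  · rw [if_pos h.symm, if_pos h, mul_one]
  · rw [if_neg (fun h' => h h'.symm), if_neg h, mul_zero]

lemma hsymm_eq (l : ℕ) : hsymm σ ℚ l =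
    ∑ a ∈ finsuppAntidiag (univ : Finset σ) l, ∏ x, (X x : MvPolynomial σ ℚ) ^ a x := by
  unfold hsymm
  refine Finset.sum_bij' (fun s _ => Multiset.toFinsupp (s : Multiset σ))
    (fun a ha => ⟨Finsupp.toMultiset a, by
      rw [Finsupp.card_toMultiset, Finsupp.sum_fintype _ _ (fun _ => rfl)]
      exact (mem_finsuppAntidiag.1 ha).1⟩) ?_ ?_ ?_ ?_ ?_
  · intro s _
    rw [mem_finsuppAntidiag]
    refine ⟨?_, subset_univ _⟩
    simp only [Multiset.toFinsupp_apply]
    rw [Multiset.sum_count_eq_card (fun _ _ => mem_univ _)]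
    exact s.2
  · intro a _; exact mem_univ _
  · intro s _
    apply Subtype.ext
    simp
  · intro a _
    simp
  · intro s _
    rw [Finset.prod_multiset_map_count]
    simp only [Multiset.toFinsupp_apply]
    exact Finset.prod_subset (subset_univ _) (fun x _ hx => by
      rw [Multiset.count_eq_zero_of_notMem (fun h => hx (Multiset.mem_toFinset.2 h)), pow_zero])

end esymm

variable {r d : ℕ}

lemma ho_batch (i : Fin r) (l : ℕ) :
    ho (bt (pb r d) univ i) l = rename (fun j : Fin d => (i, j)) (hsymm (Fin d) ℚ l) := by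
  have hset : bt (pb r d) univ i = univ.map ⟨fun j : Fin d => (i, j), fun a b h => by
      simpa using h⟩ := by
    ext ⟨i', j⟩
    simp only [mem_filter, mem_univ, true_and, mem_map, Function.Embedding.coeFn_mk]
    constructor
    · rintro rfl; exact ⟨j, rfl⟩
    · rintro ⟨a, ha⟩
      rw [Prod.mk.injEq] at ha
      exact ha.1.symm
  unfold ho Hgf
  rw [hset, prod_map, PowerSeries.coeff_prod, hsymm_eq, map_sum]
  refine Finset.sum_congr rfl fun a _ => ?_
  rw [map_prod]
  refine Finset.prod_congr rfl fun x _ => ?_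
  rw [PowerSeries.coeff_mk, map_pow, rename_X]
  rfl

end

end Pool.Agent.Helper81.Batch
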