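import Pool.Agent.Helper81.Batch.Free

/-!
The complete intersection, the exact sequences and the graded trace.
-/

open MvPolynomial Finset

namespace Pool.Agent.Helper81.Batch

noncomputable section

variable {r d : ℕ}

/-- The batch of a variable. -/
abbrev pb (r d : ℕ) : Fin r × Fin d → Fin r := Prod.fst

lemma card_bt (c : Fin r) : (bt (pb r d) univ c).card = d := by
  have : bt (pb r d) univ c = univ.map ⟨fun j : Fin d => (c, j), fun a b h => by
      simpa using h⟩ := by
    ext ⟨i, j⟩
    simp only [mem_filter, mem_univ, true_and, mem_map, Function.Embedding.coeFn_mk]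
    constructor
    · rintro rfl; exact ⟨j, rfl⟩
    · rintro ⟨a, ha⟩
      rw [Prod.mk.injEq] at ha
      exact ha.1.symm
  rw [this, card_map, card_univ, Fintype.card_fin]

lemma gs_one_mul (K : ℕ) (hK : 0 < K) : gs K * br K = gs 1 := by
  have h1 : (1 - PowerSeries.X) * br K = 1 - PowerSeries.X ^ K := by
    unfold br
    rw [mul_comm]
    exact geom_sum_mul_neg _ _
  have h2 := gs_mul 1 one_pos
  rw [pow_one] at h2
  have h3 := gs_mul K hK
  calc gs K * br K = gs K * br K * (gs 1 * (1 - PowerSeries.X)) := by rw [h2, mul_one]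
    _ = gs 1 * (gs K * ((1 - PowerSeries.X) * br K)) := by ring
    _ = gs 1 := by rw [h1, h3, mul_one]

/-- The generators `h_{D + j}` of the batches. -/
def gen (D : ℕ) (x : Fin r × Fin d) : MvPolynomial (Fin r × Fin d) ℚ :=
  ho (bt (pb r d) univ x.1) (D + x.2)

/-- Their degrees. -/
def gw (D : ℕ) (x : Fin r × Fin d) : ℕ := D + x.2

lemma Bid_zero_eq (D : ℕ) (hD : 0 < D) :
    Bid (pb r d) D univ 0 = Ideal.span (Set.range (gen (r := r) (d := d) D)) := by
  apply le_antisymm
  · refine Bid_le ?_ ?_ ?_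
    · intro x hx; exact absurd (mem_univ x) hx
    · intro c l hl
      refine ho_mem_of_consecutive _ D hD ?_ l hl
      intro j hj
      rw [card_bt] at hj
      exact Ideal.subset_span ⟨(c, ⟨j, hj⟩), rfl⟩
    · intro l hl
      rw [el_of_lt _ _ (by simpa using hl)]
      exact zero_mem _
  · rw [Ideal.span_le]
    rintro _ ⟨x, rfl⟩
    exact ho_mem_Bid _ _ _ _ _ (by omega)

/-- The list of all variables. -/
abbrev ul (r d : ℕ) : List (Fin r × Fin d) := (univ : Finset (Fin r × Fin d)).toList

lemma ul_nodup : (ul r d).Nodup := Finset.nodup_toList _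

lemma ul_toFinset : (ul r d).toFinset = univ := Finset.toList_toFinset _

lemma ul_length : (ul r d).length = r * d := by
  rw [Finset.length_toList, card_univ, Fintype.card_prod, Fintype.card_fin, Fintype.card_fin]

lemma ul_valid {D m : ℕ} (h : m < D + d) : Valid (pb r d) D (ul r d) m := by
  intro x _
  rw [ul_toFinset, card_bt]
  exact h

lemma Nb_ul_zero (D : ℕ) : Nb (pb r d) D (ul r d) 0 = ∏ x : Fin r × Fin d, br (gw D x) := by
  rw [Nb_zero _ _ _ ul_nodup, ul_toFinset, Fintype.prod_prod_type]
  refine Finset.prod_congr rfl fun c _ => ?_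
  rw [card_bt, Finset.prod_range]
  rfl

lemma HS_bot_eq {σ : Type} [Fintype σ] [DecidableEq σ] :
    HS (⊥ : Ideal (MvPolynomial σ ℚ)) = ∏ _x : σ, gs 1 := by
  have h := HT_bot (1 : Equiv.Perm σ)
  rw [prod_cyc_one] at h
  exact h

lemma HS_CI (D : ℕ) (hD : 0 < D) :
    HS (⊥ : Ideal (MvPolynomial (Fin r × Fin d) ℚ)) =
      (∏ x : Fin r × Fin d, gs (gw D x)) * HS (Bid (pb r d) D univ 0) := by
  have hw : ∀ x : Fin r × Fin d, 0 < gw D x := fun x => by unfold gw; omega
  apply CLe.antisymm
  · have h := HS_le_prod (gen (r := r) (d := d) D) (gw D) hw (fun x => ho_hom _ _) univ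
    rw [coe_univ, Set.image_univ, ← Bid_zero_eq D hD] at h
    exact h
  · have h1 : CLe (HS (Bid (pb r d) D univ 0)) (∏ x : Fin r × Fin d, br (gw D x)) := by
      have h := HS_le_Nb (pb r d) D (ul r d) 0 ul_nodup
      rw [ul_toFinset, Nb_ul_zero] at h
      rcases Nat.eq_zero_or_pos d with h0 | h0
      · apply h
        intro x _
        have := x.2.2
        omega
      · exact h (ul_valid (by omega))
    have h2 : CLe 0 (∏ x : Fin r × Fin d, gs (gw D x)) := by
      have : ∀ s : Finset (Fin r × Fin d), CLe 0 (∏ x ∈ s, gs (gw D x)) := by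
        intro s
        induction s using Finset.induction_on with
        | empty => rw [prod_empty]; exact CLe_one
        | insert z s hz ih => rw [prod_insert hz]; exact CLe.mul_nonneg (CLe_gs _) ih
      exact this univ
    have h3 := CLe.mul_left h2 h1
    rw [← Finset.prod_mul_distrib] at h3
    have h4 : ∏ x : Fin r × Fin d, gs (gw D x) * br (gw D x) =
        HS (⊥ : Ideal (MvPolynomial (Fin r × Fin d) ℚ)) := by
      rw [HS_bot_eq]
      exact Finset.prod_congr rfl fun x _ => gs_one_mul _ (hw x)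
    rwa [h4] at h3

lemma HS_CI' (D : ℕ) (hD : 0 < D) :
    HS (Bid (pb r d) D univ 0) = Nb (pb r d) D (ul r d) 0 := by
  have hw : ∀ x : Fin r × Fin d, 0 < gw D x := fun x => by unfold gw; omega
  have h1 := HS_CI (r := r) (d := d) D hD
  have h4 : (∏ x : Fin r × Fin d, gs (gw D x)) * Nb (pb r d) D (ul r d) 0 =
      HS (⊥ : Ideal (MvPolynomial (Fin r × Fin d) ℚ)) := by
    rw [Nb_ul_zero, ← Finset.prod_mul_distrib, HS_bot_eq]
    exact Finset.prod_congr rfl fun x _ => gs_one_mul _ (hw x)
  have h5 : (∏ x : Fin r × Fin d, (1 - PowerSeries.X ^ (gw D x))) *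
      (∏ x : Fin r × Fin d, gs (gw D x)) = 1 := by
    rw [← Finset.prod_mul_distrib]
    apply Finset.prod_eq_one
    intro x _
    rw [mul_comm, gs_mul _ (hw x)]
  have h6 := congrArg (fun z => (∏ x : Fin r × Fin d, (1 - PowerSeries.X ^ (gw D x))) * z)
    (h1.symm.trans h4.symm)
  simp only [← mul_assoc, h5, one_mul] at h6
  exact h6

lemma squeeze {a a' b b' : PowerSeries ℚ} {w : ℕ}
    (h : a + PowerSeries.X ^ w * b = a' + PowerSeries.X ^ w * b') (h1 : CLe a a')
    (h2 : CLe b b') : a = a' ∧ b = b' := by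
  have key : ∀ i, PowerSeries.coeff i a = PowerSeries.coeff i a' ∧
      (w ≤ i → PowerSeries.coeff (i - w) b = PowerSeries.coeff (i - w) b') := by
    intro i
    have h3 := congrArg (PowerSeries.coeff i) h
    rw [map_add, map_add, PowerSeries.coeff_X_pow_mul', PowerSeries.coeff_X_pow_mul'] at h3
    have h4 := h1 i
    split_ifs at h3 with hw
    · have h5 := h2 (i - w)
      exact ⟨by linarith, fun _ => by linarith⟩
    · exact ⟨by linarith, fun hh => absurd hh hw⟩
  refine ⟨by ext i; exact (key i).1, ?_⟩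
  ext j
  have := (key (w + j)).2 (by omega)
  rwa [Nat.add_sub_cancel_left] at this

lemma card_univ_rd : (univ : Finset (Fin r × Fin d)).card = r * d := by
  rw [card_univ, Fintype.card_prod, Fintype.card_fin, Fintype.card_fin]

theorem HS_Bid (D : ℕ) : ∀ m, m ≤ r * d → m < D + 1 + d →
    HS (Bid (pb r d) (D + 1) univ m) = Nb (pb r d) (D + 1) (ul r d) m := by
  intro m
  induction m with
  | zero => intro _ _; exact HS_CI' (D + 1) (by omega)
  | succ m ih =>
    intro h1 h2
    have hs := HS_split (Bid (pb r d) (D + 1) univ m) (hom_Bid _ _ _ _)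
      (el univ ((univ : Finset (Fin r × Fin d)).card - m)) _ (el_hom _ _)
    rw [← Bid_succ _ _ _ _ (by rw [card_univ_rd]; omega), ih (by omega) (by omega),
      Nb_rec (pb r d) D (ul r d) m ul_nodup (ul_valid (by omega)), ul_length, card_univ_rd] at hs
    have ha := HS_le_Nb (pb r d) (D + 1) (ul r d) (m + 1) ul_nodup (ul_valid (by omega))
    have hb := HS_le_Nb (pb r d) D (ul r d) m ul_nodup (ul_valid (by omega))
    rw [ul_toFinset] at ha hb
    have hc : CLe (HS (col (Bid (pb r d) (D + 1) univ m)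
        (el (univ : Finset (Fin r × Fin d)) (r * d - m)))) (HS (Bid (pb r d) D univ m)) := by
      refine HS_mono ?_
      have := el_mul_mem (pb r d) D m univ (by rw [card_univ_rd]; omega)
        (fun c => by rw [card_bt]; omega)
      rwa [card_univ_rd] at this
    exact (squeeze hs.symm ha (hc.trans hb)).1

theorem HS_col (D : ℕ) (m : ℕ) (h1 : m + 1 ≤ r * d) (h2 : m + 1 < D + 1 + d) :
    HS (Bid (pb r d) D univ m) = HS (col (Bid (pb r d) (D + 1) univ m)
        (el (univ : Finset (Fin r × Fin d)) (r * d - m))) := by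
  have hs := HS_split (Bid (pb r d) (D + 1) univ m) (hom_Bid _ _ _ _)
    (el univ ((univ : Finset (Fin r × Fin d)).card - m)) _ (el_hom _ _)
  rw [← Bid_succ _ _ _ _ (by rw [card_univ_rd]; omega), HS_Bid D m (by omega) (by omega),
    Nb_rec (pb r d) D (ul r d) m ul_nodup (ul_valid (by omega)), ul_length, card_univ_rd] at hs
  have ha := HS_le_Nb (pb r d) (D + 1) (ul r d) (m + 1) ul_nodup (ul_valid (by omega))
  have hb := HS_le_Nb (pb r d) D (ul r d) m ul_nodup (ul_valid (by omega))
  rw [ul_toFinset] at ha hb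
  have hc : CLe (HS (col (Bid (pb r d) (D + 1) univ m)
      (el (univ : Finset (Fin r × Fin d)) (r * d - m)))) (HS (Bid (pb r d) D univ m)) := by
    refine HS_mono ?_
    have := el_mul_mem (pb r d) D m univ (by rw [card_univ_rd]; omega)
      (fun c => by rw [card_bt]; omega)
    rwa [card_univ_rd] at this
  have h3 := (squeeze hs.symm ha (hc.trans hb)).2
  apply CLe.antisymm
  · rw [h3]; exact hb
  · exact hc

end

end Pool.Agent.Helper81.Batch
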