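import Pool.Agent.Helper81.Batch.Graded

/-!
Generating functions of the elementary and complete homogeneous polynomials of a finite set of
variables, the ideals `Bid b D s m`, and the upper bound for their Hilbert series obtained by
peeling one variable at a time.
-/

open MvPolynomial Finset

namespace Pool.Agent.Helper81.Batch

noncomputable section

variable {σ : Type} [Fintype σ] [DecidableEq σ]

/-- Generating function of the elementary symmetric polynomials in the variables of `s`. -/
def Egf (s : Finset σ) : PowerSeries (MvPolynomial σ ℚ) :=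
  ∏ x ∈ s, (1 + PowerSeries.C (X x : MvPolynomial σ ℚ) * PowerSeries.X)

/-- Generating function of the complete homogeneous polynomials in the variables of `s`. -/
def Hgf (s : Finset σ) : PowerSeries (MvPolynomial σ ℚ) :=
  ∏ x ∈ s, PowerSeries.mk (fun n => (X x : MvPolynomial σ ℚ) ^ n)

/-- Elementary symmetric polynomial in the variables of `s`. -/
def el (s : Finset σ) (l : ℕ) : MvPolynomial σ ℚ := PowerSeries.coeff l (Egf s)

/-- Complete homogeneous polynomial in the variables of `s`. -/
def ho (s : Finset σ) (l : ℕ) : MvPolynomial σ ℚ := PowerSeries.coeff l (Hgf s)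

omit [Fintype σ] [DecidableEq σ] in
lemma geom_mul (x : σ) :
    (1 - PowerSeries.C (X x : MvPolynomial σ ℚ) * PowerSeries.X) *
      PowerSeries.mk (fun n => (X x : MvPolynomial σ ℚ) ^ n) = 1 := by
  ext1 n
  rw [sub_mul, one_mul, map_sub, mul_assoc, PowerSeries.coeff_C_mul, PowerSeries.coeff_mk]
  cases n with
  | zero => simp
  | succ n =>
    rw [PowerSeries.coeff_succ_X_mul, PowerSeries.coeff_mk, PowerSeries.coeff_one]
    simp [pow_succ, mul_comm]

omit [Fintype σ] in
lemma el_insert {y : σ} {s : Finset σ} (hy : y ∉ s) (l : ℕ) :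
    el (insert y s) (l + 1) = el s (l + 1) + X y * el s l := by
  unfold el Egf
  rw [prod_insert hy, add_mul, one_mul, map_add, mul_assoc, PowerSeries.coeff_C_mul,
    PowerSeries.coeff_succ_X_mul]

omit [Fintype σ] [DecidableEq σ] in
lemma el_zero (s : Finset σ) : el s 0 = 1 := by
  unfold el Egf
  rw [PowerSeries.coeff_zero_eq_constantCoeff_apply, map_prod]
  simp

omit [Fintype σ] [DecidableEq σ] in
lemma ho_zero (s : Finset σ) : ho s 0 = 1 := by
  unfold ho Hgf
  rw [PowerSeries.coeff_zero_eq_constantCoeff_apply, map_prod]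
  apply Finset.prod_eq_one
  intro x _
  rw [← PowerSeries.coeff_zero_eq_constantCoeff_apply, PowerSeries.coeff_mk, pow_zero]

omit [Fintype σ] in
lemma ho_insert {y : σ} {s : Finset σ} (hy : y ∉ s) (l : ℕ) :
    ho s (l + 1) = ho (insert y s) (l + 1) - X y * ho (insert y s) l := by
  have h : Hgf s = (1 - PowerSeries.C (X y : MvPolynomial σ ℚ) * PowerSeries.X) *
      Hgf (insert y s) := by
    unfold Hgf
    rw [prod_insert hy, ← mul_assoc, geom_mul, one_mul]
  unfold ho
  rw [h, sub_mul, one_mul, map_sub, mul_assoc, PowerSeries.coeff_C_mul,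
    PowerSeries.coeff_succ_X_mul]

omit [Fintype σ] in
lemma el_of_lt (s : Finset σ) : ∀ l, s.card < l → el s l = 0 := by
  induction s using Finset.induction_on with
  | empty =>
    intro l hl
    rw [card_empty] at hl
    unfold el Egf
    rw [prod_empty, PowerSeries.coeff_one, if_neg (by omega)]
  | insert y s hy ih =>
    intro l hl
    rw [card_insert_of_notMem hy] at hl
    obtain ⟨l', rfl⟩ := Nat.exists_eq_succ_of_ne_zero (show l ≠ 0 by omega)
    rw [Nat.succ_eq_add_one, el_insert hy, ih _ (by omega), ih _ (by omega), mul_zero, add_zero]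

omit [Fintype σ] in
lemma el_hom (s : Finset σ) : ∀ l, (el s l).IsHomogeneous l := by
  induction s using Finset.induction_on with
  | empty =>
    intro l
    unfold el Egf
    rw [prod_empty, PowerSeries.coeff_one]
    split_ifs with h
    · subst h; exact isHomogeneous_one σ ℚ
    · exact isHomogeneous_zero σ ℚ l
  | insert y s hy ih =>
    intro l
    cases l with
    | zero => rw [el_zero]; exact isHomogeneous_one σ ℚ
    | succ l =>
      rw [el_insert hy]
      refine (ih _).add ?_
      rw [add_comm l 1]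
      exact (isHomogeneous_X ℚ y).mul (ih l)

omit [Fintype σ] in
lemma ho_hom (s : Finset σ) : ∀ l, (ho s l).IsHomogeneous l := by
  induction s using Finset.induction_on with
  | empty =>
    intro l
    unfold ho Hgf
    rw [prod_empty, PowerSeries.coeff_one]
    split_ifs with h
    · subst h; exact isHomogeneous_one σ ℚ
    · exact isHomogeneous_zero σ ℚ l
  | insert y s hy ih =>
    intro l
    induction l with
    | zero => rw [ho_zero]; exact isHomogeneous_one σ ℚ
    | succ l ihl =>
      have h := ho_insert hy l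
      have h' : ho (insert y s) (l + 1) = ho s (l + 1) + X y * ho (insert y s) l := by
        rw [h]; ring
      rw [h']
      refine (ih _).add ?_
      rw [add_comm l 1]
      exact (isHomogeneous_X ℚ y).mul ihl

variable {β : Type} [DecidableEq β]

/-- The variables of `s` in the batch `c`. -/
abbrev bt (b : σ → β) (s : Finset σ) (c : β) : Finset σ := s.filter (fun x => b x = c)

/-- The ideal generated by the variables outside `s`, the complete homogeneous polynomials of
degree `≥ D` in each batch of `s` and the elementary symmetric polynomials of degree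
`> |s| - m` in `s`. -/
def Bid (b : σ → β) (D : ℕ) (s : Finset σ) (m : ℕ) : Ideal (MvPolynomial σ ℚ) :=
  Ideal.span ({p | ∃ x, x ∉ s ∧ p = X x} ∪ {p | ∃ c l, D ≤ l ∧ p = ho (bt b s c) l} ∪
    {p | ∃ l, s.card < l + m ∧ p = el s l})

omit [Fintype σ] [DecidableEq σ] in
lemma X_mem_Bid (b : σ → β) (D : ℕ) (s : Finset σ) (m : ℕ) {x : σ} (hx : x ∉ s) :
    (X x : MvPolynomial σ ℚ) ∈ Bid b D s m :=
  Ideal.subset_span (Or.inl (Or.inl ⟨x, hx, rfl⟩))

omit [Fintype σ] [DecidableEq σ] in
lemma ho_mem_Bid (b : σ → β) (D : ℕ) (s : Finset σ) (m : ℕ) (c : β) {l : ℕ} (hl : D ≤ l) :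
    ho (bt b s c) l ∈ Bid b D s m :=
  Ideal.subset_span (Or.inl (Or.inr ⟨c, l, hl, rfl⟩))

omit [Fintype σ] [DecidableEq σ] in
lemma el_mem_Bid (b : σ → β) (D : ℕ) (s : Finset σ) (m : ℕ) {l : ℕ} (hl : s.card < l + m) :
    el s l ∈ Bid b D s m :=
  Ideal.subset_span (Or.inr ⟨l, hl, rfl⟩)

omit [Fintype σ] [DecidableEq σ] in
lemma Bid_le {b : σ → β} {D : ℕ} {s : Finset σ} {m : ℕ} {J : Ideal (MvPolynomial σ ℚ)}
    (h1 : ∀ x, x ∉ s → (X x : MvPolynomial σ ℚ) ∈ J)
    (h2 : ∀ c l, D ≤ l → ho (bt b s c) l ∈ J)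
    (h3 : ∀ l, s.card < l + m → el s l ∈ J) : Bid b D s m ≤ J := by
  apply Ideal.span_le.2
  rintro p ((⟨x, hx, rfl⟩ | ⟨c, l, hl, rfl⟩) | ⟨l, hl, rfl⟩)
  · exact h1 x hx
  · exact h2 c l hl
  · exact h3 l hl

omit [Fintype σ] in
lemma hom_Bid (b : σ → β) (D : ℕ) (s : Finset σ) (m : ℕ) : Hom (Bid b D s m) := by
  apply hom_span
  rintro p ((⟨x, hx, rfl⟩ | ⟨c, l, hl, rfl⟩) | ⟨l, hl, rfl⟩)
  · exact ⟨1, isHomogeneous_X ℚ x⟩
  · exact ⟨l, ho_hom _ l⟩
  · exact ⟨l, el_hom _ l⟩

omit [Fintype σ] in
lemma bt_insert_same (b : σ → β) (s : Finset σ) (y : σ) :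
    bt b (insert y s) (b y) = insert y (bt b s (b y)) := by
  ext x; simp only [mem_filter, mem_insert]
  constructor
  · rintro ⟨rfl | h, h'⟩
    · exact Or.inl rfl
    · exact Or.inr ⟨h, h'⟩
  · rintro (rfl | ⟨h, h'⟩)
    · exact ⟨Or.inl rfl, rfl⟩
    · exact ⟨Or.inr h, h'⟩

omit [Fintype σ] in
lemma bt_insert_ne (b : σ → β) (s : Finset σ) {y : σ} {c : β} (h : b y ≠ c) :
    bt b (insert y s) c = bt b s c := by
  ext x; simp only [mem_filter, mem_insert]
  constructor
  · rintro ⟨rfl | h1, h'⟩
    · exact absurd h' h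
    · exact ⟨h1, h'⟩
  · rintro ⟨h1, h'⟩
    exact ⟨Or.inr h1, h'⟩

omit [Fintype σ] in
lemma ho_mem_of_insert {b : σ → β} {D : ℕ} {s : Finset σ} {m : ℕ} {y : σ} (hy : y ∉ s) (c : β)
    {l : ℕ} (hl : D ≤ l) :
    ho (bt b s c) l ∈ Bid b D (insert y s) m ⊔ Ideal.span {(X y : MvPolynomial σ ℚ)} := by
  by_cases hc : b y = c
  · subst hc
    have hy' : y ∉ bt b s (b y) := fun h => hy (mem_filter.1 h).1
    cases l with
    | zero =>
      rw [ho_zero, ← ho_zero (bt b (insert y s) (b y))]
      exact (le_sup_left : _ ≤ Bid b D (insert y s) m ⊔ _) (ho_mem_Bid b D _ m _ hl)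
    | succ l =>
      rw [ho_insert hy', ← bt_insert_same]
      refine sub_mem ?_ ?_
      · exact (le_sup_left : _ ≤ Bid b D (insert y s) m ⊔ _) (ho_mem_Bid b D _ m _ hl)
      · exact (le_sup_right : Ideal.span {(X y : MvPolynomial σ ℚ)} ≤ _)
          (Ideal.mul_mem_right _ _ (Ideal.mem_span_singleton_self _))
  · rw [← bt_insert_ne b s hc]
    exact (le_sup_left : _ ≤ Bid b D (insert y s) m ⊔ _) (ho_mem_Bid b D _ m _ hl)

omit [Fintype σ] in
lemma el_mem_of_insert {b : σ → β} {D : ℕ} {s : Finset σ} {m : ℕ} {y : σ} (hy : y ∉ s)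
    {l : ℕ} (hl : (insert y s).card < l + m) :
    el s l ∈ Bid b D (insert y s) m ⊔ Ideal.span {(X y : MvPolynomial σ ℚ)} := by
  cases l with
  | zero =>
    rw [el_zero, ← el_zero (insert y s)]
    exact (le_sup_left : _ ≤ Bid b D (insert y s) m ⊔ _) (el_mem_Bid b D _ m hl)
  | succ l =>
    have h : el s (l + 1) = el (insert y s) (l + 1) - X y * el s l := by
      rw [el_insert hy]; ring
    rw [h]
    refine sub_mem ?_ ?_
    · exact (le_sup_left : _ ≤ Bid b D (insert y s) m ⊔ _) (el_mem_Bid b D _ m hl)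
    · exact (le_sup_right : Ideal.span {(X y : MvPolynomial σ ℚ)} ≤ _)
        (Ideal.mul_mem_right _ _ (Ideal.mem_span_singleton_self _))

omit [Fintype σ] in
lemma X_mem_of_insert {b : σ → β} {D : ℕ} {s : Finset σ} {m : ℕ} {y x : σ} (hx : x ∉ s) :
    (X x : MvPolynomial σ ℚ) ∈
      Bid b D (insert y s) m ⊔ Ideal.span {(X y : MvPolynomial σ ℚ)} := by
  by_cases h : x = y
  · subst h
    exact (le_sup_right : Ideal.span {(X x : MvPolynomial σ ℚ)} ≤ _)
      (Ideal.mem_span_singleton_self _)
  · exact (le_sup_left : _ ≤ Bid b D (insert y s) m ⊔ _)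
      (X_mem_Bid b D _ m (by rw [mem_insert]; tauto))

omit [Fintype σ] in
lemma Bid_peel_one {b : σ → β} {D : ℕ} {s : Finset σ} {m : ℕ} {y : σ} (hy : y ∉ s) :
    Bid b D s m ≤ Bid b D (insert y s) (m + 1) ⊔ Ideal.span {(X y : MvPolynomial σ ℚ)} := by
  refine Bid_le (fun x hx => X_mem_of_insert hx) (fun c l hl => ho_mem_of_insert hy c hl)
    (fun l hl => el_mem_of_insert hy ?_)
  rw [card_insert_of_notMem hy]; omega

omit [Fintype σ] in
lemma pow_mul_el_mem {b : σ → β} {D : ℕ} {s : Finset σ} {m : ℕ} {y : σ} (hy : y ∉ s) :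
    ∀ a l, s.card < l + a → s.card + 1 ≤ l + m →
      (X y : MvPolynomial σ ℚ) ^ a * el s l ∈ Bid b D (insert y s) m := by
  intro a
  induction a with
  | zero =>
    intro l h1 _
    rw [el_of_lt s l (by omega), mul_zero]; exact zero_mem _
  | succ a ih =>
    intro l h1 h2
    have h : (X y : MvPolynomial σ ℚ) ^ (a + 1) * el s l =
        X y ^ a * el (insert y s) (l + 1) - X y ^ a * el s (l + 1) := by
      rw [el_insert hy]; ring
    rw [h]
    refine sub_mem (Ideal.mul_mem_left _ _ (el_mem_Bid b D _ m ?_)) (ih (l + 1) (by omega) (by omega))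
    rw [card_insert_of_notMem hy]; omega

omit [Fintype σ] [DecidableEq σ] in
lemma le_col (I : Ideal (MvPolynomial σ ℚ)) (f : MvPolynomial σ ℚ) : I ≤ col I f :=
  fun _ hp => Ideal.mul_mem_left _ _ hp

omit [Fintype σ] in
lemma Bid_peel_two {b : σ → β} {D : ℕ} {s : Finset σ} {m : ℕ} {y : σ} (hy : y ∉ s) :
    Bid b D s m ≤ col (Bid b D (insert y s) m) (X y ^ m) ⊔
      Ideal.span {(X y : MvPolynomial σ ℚ)} := by
  have hle : Bid b D (insert y s) m ⊔ Ideal.span {(X y : MvPolynomial σ ℚ)} ≤
      col (Bid b D (insert y s) m) (X y ^ m) ⊔ Ideal.span {(X y : MvPolynomial σ ℚ)} :=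
    sup_le_sup_right (le_col _ _) _
  refine Bid_le (fun x hx => hle (X_mem_of_insert hx))
    (fun c l hl => hle (ho_mem_of_insert hy c hl)) (fun l hl => ?_)
  apply (le_sup_left : col (Bid b D (insert y s) m) (X y ^ m) ≤ _)
  rw [mem_col]
  exact pow_mul_el_mem hy m l hl (by omega)

omit [Fintype σ] in
lemma ho_mem_of_union {I : Ideal (MvPolynomial σ ℚ)} {L : ℕ} (t : Finset σ) :
    ∀ s : Finset σ, Disjoint s t → (∀ l, L ≤ l → ho (s ∪ t) l ∈ I) →
      ∀ l, L + t.card ≤ l → ho s l ∈ I := by
  induction t using Finset.induction_on with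
  | empty =>
    intro s _ h l hl
    have := h l (by simpa using hl)
    rwa [union_empty] at this
  | insert y t hy ih =>
    intro s hd h l hl
    rw [card_insert_of_notMem hy] at hl
    rw [disjoint_insert_right] at hd
    obtain ⟨l', rfl⟩ := Nat.exists_eq_succ_of_ne_zero (show l ≠ 0 by omega)
    rw [Nat.succ_eq_add_one, ho_insert hd.1]
    have h' : ∀ l, L ≤ l → ho (insert y s ∪ t) l ∈ I := by
      intro l hl
      have := h l hl
      rwa [union_insert, ← insert_union] at this
    have hd' : Disjoint (insert y s) t := by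
      rw [disjoint_insert_left]; exact ⟨hy, hd.2⟩
    refine sub_mem (ih _ hd' h' _ (by omega)) (Ideal.mul_mem_left _ _ (ih _ hd' h' _ (by omega)))

omit [Fintype σ] in
lemma pow_mem_Bid {b : σ → β} {D : ℕ} {s : Finset σ} {m : ℕ} {y : σ} (hy : y ∉ s) :
    (X y : MvPolynomial σ ℚ) ^ (D + (bt b s (b y)).card) ∈ Bid b D (insert y s) m := by
  have hd : Disjoint ({y} : Finset σ) (bt b s (b y)) := by
    rw [disjoint_singleton_left]
    exact fun h => hy (mem_filter.1 h).1
  have h := ho_mem_of_union (I := Bid b D (insert y s) m) (L := D) (bt b s (b y)) {y} hd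
    (fun l hl => by
      rw [← insert_eq, ← bt_insert_same]
      exact ho_mem_Bid b D _ m _ hl) _ le_rfl
  have e : ho ({y} : Finset σ) (D + (bt b s (b y)).card) = X y ^ (D + (bt b s (b y)).card) := by
    unfold ho Hgf
    rw [prod_singleton, PowerSeries.coeff_mk]
  rwa [e] at h

omit [DecidableEq σ] in
lemma HS_split (I : Ideal (MvPolynomial σ ℚ)) (hh : Hom I)
    (f : MvPolynomial σ ℚ) (w : ℕ) (hf : f.IsHomogeneous w) :
    HS I = HS (I ⊔ Ideal.span {f}) + PowerSeries.X ^ w * HS (col I f) := by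
  unfold HS
  refine HT_split 1 I _ hh f w hf ?_ _ _
  rw [Equiv.Perm.coe_one, rename_id_apply]

omit [DecidableEq σ] in
lemma HS_powers (y : σ) : ∀ (K : ℕ) (I : Ideal (MvPolynomial σ ℚ)), Hom I →
    (X y : MvPolynomial σ ℚ) ^ K ∈ I →
    HS I = ∑ j ∈ range K, PowerSeries.X ^ j *
      HS (col I (X y ^ j) ⊔ Ideal.span {(X y : MvPolynomial σ ℚ)}) := by
  intro K
  induction K with
  | zero =>
    intro I _ h
    rw [range_zero, sum_empty]
    rw [pow_zero] at h
    exact HT_top h 1 _
  | succ K ih =>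
    intro I hI h
    rw [HS_split I hI (X y) 1 (isHomogeneous_X ℚ y), Finset.sum_range_succ', add_comm]
    congr 1
    · rw [ih (col I (X y)) (hI.col (isHomogeneous_X ℚ y)) (by rw [mem_col, ← pow_succ']; exact h),
        Finset.mul_sum]
      refine Finset.sum_congr rfl fun j _ => ?_
      have : col (col I (X y)) (X y ^ j) = col I (X y ^ (j + 1)) := by
        ext p
        rw [mem_col, mem_col, mem_col, ← mul_assoc, ← pow_succ']
      rw [this, ← mul_assoc, pow_one, ← pow_succ']
    · have : col I (X y ^ 0) = I := by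
        ext p
        rw [mem_col, pow_zero, one_mul]
      rw [this, pow_zero, one_mul]

/-- The `q`-integer `1 + q + ... + q^(n-1)`. -/
def br (n : ℕ) : PowerSeries ℚ := ∑ j ∈ range n, PowerSeries.X ^ j

lemma br_zero : br 0 = 0 := by simp [br]

lemma br_succ (n : ℕ) : br (n + 1) = br n + PowerSeries.X ^ n := by
  unfold br; rw [sum_range_succ]

lemma CLe_br (n : ℕ) : CLe 0 (br n) := by
  have := CLe.sum (range n) (fun _ => 0) (fun j => PowerSeries.X ^ j) (fun j _ => CLe_X_pow j)
  rwa [sum_const_zero] at this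

/-- The upper bound. -/
def Nb (b : σ → β) (D : ℕ) : List σ → ℕ → PowerSeries ℚ
  | [], m => if m = 0 then 1 else 0
  | y :: l, m => br m * Nb b D l (m - 1) +
      PowerSeries.X ^ m * br (D + (bt b l.toFinset (b y)).card - m) * Nb b D l m

/-- Admissible triples. -/
def Valid (b : σ → β) (D : ℕ) (l : List σ) (m : ℕ) : Prop :=
  ∀ x ∈ l, m < D + (bt b l.toFinset (b x)).card

omit [Fintype σ] in
lemma valid_step {b : σ → β} {D : ℕ} {y : σ} {l : List σ} {m : ℕ} (hn : (y :: l).Nodup)
    (h : Valid b D (y :: l) m) {m' : ℕ} (hm : m' ≤ m)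
    (h' : m' < D + (bt b l.toFinset (b y)).card) : Valid b D l m' := by
  intro x hx
  have h1 := h x (List.mem_cons_of_mem _ hx)
  have hy : y ∉ l.toFinset := by
    rw [List.mem_toFinset]; exact (List.nodup_cons.1 hn).1
  rw [List.toFinset_cons] at h1
  by_cases hc : b y = b x
  · rw [← hc]; exact h'
  · rw [bt_insert_ne b _ hc] at h1
    omega

omit [DecidableEq σ] in
lemma HS_vars (D : ℕ) (b : σ → β) : CLe (HS (Bid b D (∅ : Finset σ) 0)) 1 := by
  intro i
  rw [coeff_HS, PowerSeries.coeff_one]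
  split_ifs with hi
  · subst hi
    have h1 : Module.finrank ℚ (P σ 0 ⧸ Idl (Bid b D (∅ : Finset σ) 0) 0) ≤
        Module.finrank ℚ (P σ 0) := Submodule.finrank_quotient_le _
    have h2 : Module.finrank ℚ (P σ 0) ≤ 1 := by
      have e : P σ 0 = Submodule.span ℚ {(1 : MvPolynomial σ ℚ)} := by
        rw [P, homogeneousSubmodule_zero]
        exact Submodule.one_eq_span
      rw [e]
      exact (finrank_span_singleton (one_ne_zero)).le
    exact_mod_cast h1.trans h2
  · have e : Idl (Bid b D (∅ : Finset σ) 0) i = ⊤ := by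
      rw [eq_top_iff]
      rintro ⟨p, hp⟩ _
      rw [mem_Idl]
      rw [mem_homogeneousSubmodule] at hp
      change p ∈ _
      rw [p.as_sum]
      refine Ideal.sum_mem _ fun d hd => ?_
      have hdeg : d.degree = i := by
        by_contra hne
        exact (mem_support_iff.1 hd) (hp.coeff_eq_zero hne)
      have : ∃ x, d x ≠ 0 := by
        by_contra hcon
        push Not at hcon
        have : d = 0 := Finsupp.ext hcon
        rw [this, map_zero] at hdeg
        exact hi hdeg.symm
      obtain ⟨x, hx⟩ := this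
      have hmon : monomial d (coeff d p) = X x * monomial (d - Finsupp.single x 1) (coeff d p) := by
        rw [X, monomial_mul, one_mul]
        congr 1
        rw [add_comm, tsub_add_cancel_of_le]
        rw [Finsupp.single_le_iff]; omega
      rw [hmon]
      exact Ideal.mul_mem_right _ _ (X_mem_Bid b D _ _ (by simp))
    rw [e]
    have : Module.finrank ℚ (P σ i ⧸ (⊤ : Submodule ℚ (P σ i))) = 0 :=
      Module.finrank_zero_of_subsingleton
    rw [this]; simp

theorem HS_le_Nb (b : σ → β) (D : ℕ) : ∀ (l : List σ) (m : ℕ), l.Nodup → Valid b D l m →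
    CLe (HS (Bid b D l.toFinset m)) (Nb b D l m) := by
  intro l
  induction l with
  | nil =>
    intro m _ _
    rw [List.toFinset_nil]
    rcases Nat.eq_zero_or_pos m with rfl | hm
    · rw [Nb, if_pos rfl]; exact HS_vars D b
    · rw [Nb, if_neg (by omega)]
      have : (1 : MvPolynomial σ ℚ) ∈ Bid b D (∅ : Finset σ) m := by
        rw [← el_zero (∅ : Finset σ)]
        exact el_mem_Bid b D _ m (by simpa using hm)
      rw [HS, HT_top this]
      exact CLe.refl _
  | cons y l ih =>
    intro m hn hv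
    have hy : y ∉ l.toFinset := by
      rw [List.mem_toFinset]; exact (List.nodup_cons.1 hn).1
    have hn' := (List.nodup_cons.1 hn).2
    set K := D + (bt b l.toFinset (b y)).card with hK
    have hmK : m ≤ K := by
      have h1 := hv y (by simp)
      rw [List.toFinset_cons, bt_insert_same, card_insert_of_notMem] at h1
      · omega
      · exact fun h => hy (mem_filter.1 h).1
    rw [List.toFinset_cons, HS_powers y K _ (hom_Bid b D _ m) (pow_mem_Bid hy)]
    have hsplit : ∀ F : ℕ → PowerSeries ℚ, ∑ j ∈ range K, F j =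
        ∑ j ∈ range m, F j + ∑ j ∈ range (K - m), F (m + j) := by
      intro F
      rw [← Finset.sum_range_add, Nat.add_sub_cancel' hmK]
    rw [hsplit, Nb]
    refine CLe.add ?_ ?_
    · unfold br
      rw [Finset.sum_mul]
      refine CLe.sum _ _ _ fun j hj => CLe.mul_left (CLe_X_pow j) ?_
      have hm : 0 < m := by have := mem_range.1 hj; omega
      obtain ⟨m', rfl⟩ := Nat.exists_eq_succ_of_ne_zero (show m ≠ 0 by omega)
      rw [Nat.succ_eq_add_one, Nat.add_sub_cancel]
      refine CLe.trans (HS_mono ?_) (ih m' hn' (valid_step hn hv (by omega) (by omega)))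
      exact (Bid_peel_one hy).trans (sup_le_sup_right (le_col _ _) _)
    · unfold br
      rw [mul_assoc, Finset.sum_mul, Finset.mul_sum]
      refine CLe.sum _ _ _ fun j hj => ?_
      rw [← mul_assoc, ← pow_add]
      refine CLe.mul_left (CLe_X_pow _) ?_
      have hj' := mem_range.1 hj
      refine CLe.trans (HS_mono ?_) (ih m hn' (valid_step hn hv le_rfl (by omega)))
      refine (Bid_peel_two hy).trans (sup_le_sup_right ?_ _)
      intro p hp
      rw [mem_col] at hp ⊢
      rw [pow_add, mul_assoc, mul_left_comm]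
      exact Ideal.mul_mem_left _ _ hp

end

end Pool.Agent.Helper81.Batch
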